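import Pool.Agent.H21.JP.Wr
import Pool.Agent.H21.JN.Hom

/-!
# Module Base (about 150 lines): semi-invariants and their factors

PROOFS. `gj_mul`: Leibniz rule. `si_mul`: from it. `si_fac`: let `R = h ^ a * R'` with `1 ≤ a` and `¬ h ∣ R'` (`exists_eq_pow_mul_and_not_dvd`, or `multiplicity`/`emultiplicity`; `R ≠ 0`). By `gj_mul`
(and `gj 𝒜 (h ^ a) j = a * h ^ (a - 1) * gj 𝒜 h j`) `gj 𝒜 R j = h ^ (a - 1) * (a * R' * gj 𝒜 h j + h * gj 𝒜 R' j)`, and it is `C (χ j) * h ^ a * R'`; cancel `h ^ (a - 1)`: `h ∣ a * R' * gj 𝒜 h j`, `h` is prime, does not divide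
`R'` nor the nonzero constant `a`, so `h ∣ gj 𝒜 h j`. As in `semi` (Pool/Agent/H21/JN/Semi.lean) `(gj 𝒜 h j).totalDegree ≤ h.totalDegree`, so the quotient is a constant. `si_quo`:
`C (χ j) * (M * R') = gj 𝒜 (M * R') j = R' * gj 𝒜 M j + M * gj 𝒜 R' j = C (ψ j) * M * R' + M * gj 𝒜 R' j`; cancel `M`. `inv_si`: from `hinv` and skewness `Q * gj 𝒜 P i = P * gj 𝒜 Q i`
(compare `wr_ker`); `P ∣ Q * gj 𝒜 P i`, so `P ∣ gj 𝒜 P i` (`IsRelPrime`), and `(gj 𝒜 P i).totalDegree ≤ P.totalDegree`: the quotient is a constant `χ i` (if `P` is homogeneous of degree `0`, a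
constant, then `gj 𝒜 P i = 0`); then `C (χ i) * P * Q = P * gj 𝒜 Q i` gives `gj 𝒜 Q i = C (χ i) * Q`. `inv_np`: `P = c * P'`, `Q = c * Q'`, `IsRelPrime P' Q'`, `c ≠ 0` (as in `wr_ne`, JP/Wr); `P'`, `Q'` are
homogeneous (`hom_of_dvd`, JN/Hom) of the same degree (degrees of products), `NP P' Q'`, and `wr Q P i = c ^ 2 * wr Q' P' i`, so the pair `P', Q'` satisfies `hinv`; `inv_si`.
-/

namespace Pool.Agent.H21.JQ

open MvPolynomial Pool.Agent.H4.JK Pool.Agent.H21.JN Pool.Agent.H21.JP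

variable {I : Type} [Fintype I] [DecidableEq I]

/-- `P` is a semi-invariant of weight `χ`. -/
def SI (𝒜 : Matrix I I (MvPolynomial I ℂ)) (χ : I → ℂ) (P : MvPolynomial I ℂ) : Prop :=
  ∀ j, gj 𝒜 P j = C (χ j) * P

/-- There are two semi-invariants of degree `n` with the same weight, not proportional. -/
def Pr (𝒜 : Matrix I I (MvPolynomial I ℂ)) (n : ℕ) : Prop :=
  ∃ (F G : MvPolynomial I ℂ) (χ : I → ℂ), F.IsHomogeneous n ∧ G.IsHomogeneous n ∧ NP F G ∧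
    SI 𝒜 χ F ∧ SI 𝒜 χ G

/-- All homogeneous kernel fields orthogonal to the position are parallel. -/
def Parl (𝒜 : Matrix I I (MvPolynomial I ℂ)) : Prop :=
  ∀ (v1 v2 : I → MvPolynomial I ℂ) (d1 d2 : ℕ), (∀ i, (v1 i).IsHomogeneous d1) →
    (∀ i, (v2 i).IsHomogeneous d2) → (∀ i, ∑ j, 𝒜 i j * v1 j = 0) →
    (∀ i, ∑ j, 𝒜 i j * v2 j = 0) → ∑ i, X i * v1 i = 0 → ∑ i, X i * v2 i = 0 →
    ∀ i j, v1 i * v2 j = v1 j * v2 i

theorem gj_mul (𝒜 : Matrix I I (MvPolynomial I ℂ)) (P Q : MvPolynomial I ℂ) (j : I) :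
    gj 𝒜 (P * Q) j = P * gj 𝒜 Q j + Q * gj 𝒜 P j := by
  rw [gj, gj, gj, Finset.mul_sum, Finset.mul_sum, ← Finset.sum_add_distrib]
  refine Finset.sum_congr rfl fun i _ => ?_
  rw [pderiv_mul]
  ring

private theorem Base_gj_add (𝒜 : Matrix I I (MvPolynomial I ℂ)) (P Q : MvPolynomial I ℂ) (j : I) :
    gj 𝒜 (P + Q) j = gj 𝒜 P j + gj 𝒜 Q j := by
  rw [gj, gj, gj, ← Finset.sum_add_distrib]
  refine Finset.sum_congr rfl fun i _ => ?_
  rw [map_add]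
  ring

private theorem Base_gj_C (𝒜 : Matrix I I (MvPolynomial I ℂ)) (c : ℂ) (j : I) :
    gj 𝒜 (C c) j = 0 := by
  rw [gj]
  refine Finset.sum_eq_zero fun i _ => ?_
  rw [pderiv_C, zero_mul]

private theorem Base_gj_pow (𝒜 : Matrix I I (MvPolynomial I ℂ)) (P : MvPolynomial I ℂ) (j : I)
    (n : ℕ) : gj 𝒜 (P ^ (n + 1)) j = C ((n : ℂ) + 1) * P ^ n * gj 𝒜 P j := by
  induction n with
  | zero => simp
  | succ n ih =>
    rw [pow_succ, gj_mul, ih, pow_succ]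
    simp only [Nat.cast_add, Nat.cast_one, C_add, C_1]
    ring

private theorem Base_gj_deg {𝒜 : Matrix I I (MvPolynomial I ℂ)} (hlin : Lin 𝒜)
    (P : MvPolynomial I ℂ) (j : I) : (gj 𝒜 P j).totalDegree ≤ P.totalDegree := by
  rw [gj]
  apply totalDegree_finsetSum_le
  intro i _
  by_cases h9 : pderiv i P = 0
  · rw [h9, zero_mul, totalDegree_zero]
    exact Nat.zero_le _
  · refine (totalDegree_mul _ _).trans ?_
    have h1 : (𝒜 i j).totalDegree ≤ 1 := by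
      obtain ⟨c, hc⟩ := hlin i j
      rw [hc]
      apply totalDegree_finsetSum_le
      intro k _
      refine (totalDegree_mul _ _).trans ?_
      rw [totalDegree_C, totalDegree_X]
    have := totalDegree_pderiv_lt P i h9
    omega

private theorem Base_const {𝒜 : Matrix I I (MvPolynomial I ℂ)} (hlin : Lin 𝒜)
    {P : MvPolynomial I ℂ} (hP : P ≠ 0) (j : I) (h : P ∣ gj 𝒜 P j) :
    ∃ c : ℂ, gj 𝒜 P j = C c * P := by
  obtain ⟨g, hg⟩ := h
  by_cases hg0 : g = 0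
  · refine ⟨0, ?_⟩
    rw [hg, hg0, mul_zero, C_0, zero_mul]
  · have h1 := totalDegree_mul_of_isDomain hP hg0
    have h2 := Base_gj_deg hlin P j
    rw [hg, h1] at h2
    have h3 : g.totalDegree = 0 := by omega
    rw [totalDegree_eq_zero_iff_eq_C] at h3
    refine ⟨coeff 0 g, ?_⟩
    rw [hg, mul_comm P g]
    rw [← h3]

theorem si_mul {𝒜 : Matrix I I (MvPolynomial I ℂ)} {χ ψ : I → ℂ} {P Q : MvPolynomial I ℂ}
    (hP : SI 𝒜 χ P) (hQ : SI 𝒜 ψ Q) : SI 𝒜 (χ + ψ) (P * Q) := by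
  intro j
  rw [gj_mul, hP j, hQ j, Pi.add_apply, C_add]
  ring

theorem si_lin {𝒜 : Matrix I I (MvPolynomial I ℂ)} {χ : I → ℂ} {P Q : MvPolynomial I ℂ}
    (hP : SI 𝒜 χ P) (hQ : SI 𝒜 χ Q) (s t : ℂ) : SI 𝒜 χ (C s * P + C t * Q) := by
  intro j
  rw [Base_gj_add, gj_mul, gj_mul, Base_gj_C, Base_gj_C, hP j, hQ j]
  ring

theorem si_fac {𝒜 : Matrix I I (MvPolynomial I ℂ)} (hlin : Lin 𝒜) {χ : I → ℂ}
    {R h : MvPolynomial I ℂ} (hR0 : R ≠ 0) (hR : SI 𝒜 χ R) (hh : Irreducible h) (hd : h ∣ R) :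
    ∃ ψ : I → ℂ, SI 𝒜 ψ h := by
  obtain ⟨a, R', hR', hRa⟩ := WfDvdMonoid.max_power_factor hR0 hh
  have hp := hh.prime
  cases a with
  | zero =>
    rw [pow_zero, one_mul] at hRa
    rw [hRa] at hd
    exact absurd hd hR'
  | succ b =>
    have h1 : ∀ j, h ∣ gj 𝒜 h j := by
      intro j
      have h2 := hR j
      rw [hRa, gj_mul, Base_gj_pow] at h2
      have h3 : h ^ b * (C ((b : ℂ) + 1) * R' * gj 𝒜 h j) =
          h ^ b * (h * (C (χ j) * R' - gj 𝒜 R' j)) := by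
        rw [pow_succ] at h2
        linear_combination h2
      have h4 := mul_left_cancel₀ (pow_ne_zero b hh.ne_zero) h3
      have h5 : h ∣ C ((b : ℂ) + 1) * R' * gj 𝒜 h j := ⟨_, h4⟩
      rcases hp.dvd_or_dvd h5 with h6 | h6
      · rcases hp.dvd_or_dvd h6 with h7 | h7
        · exfalso
          apply hh.not_isUnit
          refine isUnit_of_dvd_unit h7 ?_
          apply IsUnit.map
          rw [isUnit_iff_ne_zero]
          exact Nat.cast_add_one_ne_zero b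
        · exact absurd h7 hR'
      · exact h6
    choose ψ hψ using fun j => Base_const hlin hh.ne_zero j (h1 j)
    exact ⟨ψ, hψ⟩

theorem si_quo {𝒜 : Matrix I I (MvPolynomial I ℂ)} {χ ψ : I → ℂ} {M R : MvPolynomial I ℂ}
    (hM0 : M ≠ 0) (hM : SI 𝒜 ψ M) (hR : SI 𝒜 χ (M * R)) : SI 𝒜 (χ - ψ) R := by
  intro j
  have h1 := hR j
  rw [gj_mul, hM j] at h1
  apply mul_left_cancel₀ hM0
  rw [Pi.sub_apply, C_sub]
  linear_combination h1

private theorem Base_swap {𝒜 : Matrix I I (MvPolynomial I ℂ)} (hA : 𝒜.transpose = -𝒜)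
    (P : MvPolynomial I ℂ) (i : I) : ∑ j, 𝒜 i j * pderiv j P = -gj 𝒜 P i := by
  rw [gj, ← Finset.sum_neg_distrib]
  refine Finset.sum_congr rfl fun j _ => ?_
  have h1 := congrFun (congrFun hA j) i
  simp only [Matrix.transpose_apply, Matrix.neg_apply] at h1
  rw [h1]
  ring

theorem inv_si {𝒜 : Matrix I I (MvPolynomial I ℂ)} (hA : 𝒜.transpose = -𝒜) (hlin : Lin 𝒜)
    {P Q : MvPolynomial I ℂ} {n : ℕ} (hP : P.IsHomogeneous n) (hP0 : P ≠ 0) (hQ0 : Q ≠ 0)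
    (hco : IsRelPrime P Q) (hinv : ∀ i, ∑ j, 𝒜 i j * wr Q P j = 0) :
    ∃ χ : I → ℂ, SI 𝒜 χ P ∧ SI 𝒜 χ Q := by
  have h1 : ∀ i, Q * gj 𝒜 P i = P * gj 𝒜 Q i := by
    intro i
    have h2 : ∑ j, 𝒜 i j * wr Q P j =
        Q * ∑ j, 𝒜 i j * pderiv j P - P * ∑ j, 𝒜 i j * pderiv j Q := by
      rw [Finset.mul_sum, Finset.mul_sum, ← Finset.sum_sub_distrib]
      refine Finset.sum_congr rfl fun j _ => ?_
      rw [wr]
      ring
    have h3 := hinv i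
    rw [h2, Base_swap hA, Base_swap hA] at h3
    linear_combination -h3
  have h2 : ∀ i, P ∣ gj 𝒜 P i := by
    intro i
    have h3 : P ∣ Q * gj 𝒜 P i := ⟨_, h1 i⟩
    exact hco.dvd_of_dvd_mul_left h3
  choose χ hχ using fun i => Base_const hlin hP0 i (h2 i)
  refine ⟨χ, hχ, fun i => ?_⟩
  apply mul_left_cancel₀ hP0
  rw [← h1 i, hχ i]
  ring

theorem inv_np {𝒜 : Matrix I I (MvPolynomial I ℂ)} (hA : 𝒜.transpose = -𝒜) (hlin : Lin 𝒜)
    {P Q : MvPolynomial I ℂ} {n : ℕ} (hP : P.IsHomogeneous n) (hQ : Q.IsHomogeneous n)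
    (hnp : NP P Q) (hinv : ∀ i, ∑ j, 𝒜 i j * wr Q P j = 0) :
    ∃ (c P' Q' : MvPolynomial I ℂ) (χ : I → ℂ) (n' : ℕ), c ≠ 0 ∧ P = c * P' ∧ Q = c * Q' ∧
      P'.IsHomogeneous n' ∧ Q'.IsHomogeneous n' ∧ n' ≤ n ∧ NP P' Q' ∧ SI 𝒜 χ P' ∧ SI 𝒜 χ Q' := by
  have hP0 : P ≠ 0 := by
    rintro rfl
    have h1 := hnp 1 0 (by rw [mul_zero, C_0, zero_mul, zero_add])
    exact one_ne_zero h1.1
  have hQ0 : Q ≠ 0 := by
    rintro rfl
    have h1 := hnp 0 1 (by rw [mul_zero, C_0, zero_mul, zero_add])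
    exact one_ne_zero h1.2
  obtain ⟨P', Q', c, hrel, hcP, hcQ⟩ := UniqueFactorizationMonoid.exists_reduced_factors' P Q hQ0
  have hc0 : c ≠ 0 := by
    rintro rfl
    rw [zero_mul] at hcP
    exact hP0 hcP.symm
  have hP'0 : P' ≠ 0 := by
    rintro rfl
    rw [mul_zero] at hcP
    exact hP0 hcP.symm
  have hQ'0 : Q' ≠ 0 := by
    rintro rfl
    rw [mul_zero] at hcQ
    exact hQ0 hcQ.symm
  have hhP := hom_of_dvd hP hP0 ⟨c, by rw [mul_comm, hcP]⟩ (f := P')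
  have hhQ := hom_of_dvd hQ hQ0 ⟨c, by rw [mul_comm, hcQ]⟩ (f := Q')
  have hdP : c.totalDegree + P'.totalDegree = n := by
    rw [← totalDegree_mul_of_isDomain hc0 hP'0, hcP]
    exact hP.totalDegree hP0
  have hdQ : c.totalDegree + Q'.totalDegree = n := by
    rw [← totalDegree_mul_of_isDomain hc0 hQ'0, hcQ]
    exact hQ.totalDegree hQ0
  have hPQ : Q'.totalDegree = P'.totalDegree := by omega
  rw [hPQ] at hhQ
  have hinv' : ∀ i, ∑ j, 𝒜 i j * wr Q' P' j = 0 := by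
    intro i
    have h1 := hinv i
    have h2 : ∑ j, 𝒜 i j * wr Q P j = c * c * ∑ j, 𝒜 i j * wr Q' P' j := by
      rw [Finset.mul_sum]
      refine Finset.sum_congr rfl fun j _ => ?_
      rw [wr, wr, ← hcP, ← hcQ, pderiv_mul, pderiv_mul]
      ring
    rw [h2] at h1
    exact (mul_eq_zero.1 h1).resolve_left (mul_ne_zero hc0 hc0)
  obtain ⟨χ, h3, h4⟩ := inv_si hA hlin hhP hP'0 hQ'0 hrel hinv'
  refine ⟨c, P', Q', χ, P'.totalDegree, hc0, hcP.symm, hcQ.symm, hhP, hhQ, by omega, ?_, h3, h4⟩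
  intro s t hst
  apply hnp
  rw [← hcP, ← hcQ]
  linear_combination c * hst

end Pool.Agent.H21.JQ
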