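import Pool.Agent.H21.JP.AlgF

/-!
# Module BinF (about 150 lines): binary forms in two polynomials

PROOFS. `bf_div`: the form `B = ∑ β j G^j F^(b-j)`. If `t ≠ 0`: divide the polynomial `∑ β j X^j` by `X + C (s / t)`: quotient coefficients `β'`, remainder `ρ`; homogenising,
`bf b β F G = (C s * F + C t * G) * bf (b - 1) β'' F G + C ρ * F ^ b` with `β'' = t⁻¹ • β'` (for `b = 0` the form is the constant `C (β 0)`, and `f ∣ C (β 0)` is impossible unless `β 0 = 0`; `b ≥ 1`
follows from `hβ` and `hB`). `f` divides the left side and `C s * F + C t * G`, so `f ∣ C ρ * F ^ b`; `f` is prime and does not divide `F`, so `ρ = 0`. If `t = 0` then `s ≠ 0` and `f ∣ C s * F` gives `f ∣ F`, a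
contradiction. `bf_mul_lin`: multiply out; `γ j = s * β j + t * β (j - 1)` (with `β (-1) = 0` and `β (b + 1)` replaced by `0`), i.e. `γ j = s * (if j ≤ b then β j else 0) + t * (if 1 ≤ j then β (j - 1) else 0)`.
`bf_add`: `γ j = s * α j + t * β j`. `bf_zero`: if all `β j` with `j ≤ b` vanish then the form is zero.
-/

namespace Pool.Agent.H21.JQ

open MvPolynomial Pool.Agent.H4.JK Pool.Agent.H21.JP

variable {I : Type} [Fintype I] [DecidableEq I]

/-- The binary form with coefficients `c` of degree `b` in `F`, `G`. -/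
noncomputable def bf (b : ℕ) (c : ℕ → ℂ) (F G : MvPolynomial I ℂ) : MvPolynomial I ℂ :=
  ∑ j ∈ Finset.range (b + 1), C (c j) * (G ^ j * F ^ (b - j))

theorem bf_add (b : ℕ) (α β : ℕ → ℂ) (F G : MvPolynomial I ℂ) (s t : ℂ) :
    ∃ γ : ℕ → ℂ, bf b γ F G = C s * bf b α F G + C t * bf b β F G := by
  refine ⟨fun j => s * α j + t * β j, ?_⟩
  unfold bf
  rw [Finset.mul_sum, Finset.mul_sum, ← Finset.sum_add_distrib]
  refine Finset.sum_congr rfl fun j _ => ?_
  rw [map_add, map_mul, map_mul]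
  ring

theorem bf_mul_lin (b : ℕ) (β : ℕ → ℂ) (F G : MvPolynomial I ℂ) (s t : ℂ) :
    ∃ γ : ℕ → ℂ, bf (b + 1) γ F G = (C s * F + C t * G) * bf b β F G := by
  refine ⟨fun j => s * (if j ≤ b then β j else 0) + t * (if 1 ≤ j then β (j - 1) else 0), ?_⟩
  have h1 : ∑ j ∈ Finset.range (b + 2), C (if j ≤ b then β j else 0) * (G ^ j * F ^ (b + 1 - j)) =
      F * bf b β F G := by
    rw [Finset.sum_range_succ, if_neg (by omega), map_zero, zero_mul, add_zero, bf,
      Finset.mul_sum]
    refine Finset.sum_congr rfl fun j hj => ?_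
    have hj' : j ≤ b := by have := Finset.mem_range.1 hj; omega
    rw [if_pos hj', show b + 1 - j = (b - j) + 1 by omega, pow_succ]
    ring
  have h2 : ∑ j ∈ Finset.range (b + 2),
      C (if 1 ≤ j then β (j - 1) else 0) * (G ^ j * F ^ (b + 1 - j)) = G * bf b β F G := by
    rw [Finset.sum_range_succ', if_neg (by omega), map_zero, zero_mul, add_zero, bf,
      Finset.mul_sum]
    refine Finset.sum_congr rfl fun j hj => ?_
    rw [if_pos (by omega), Nat.add_sub_cancel, show b + 1 - (j + 1) = b - j by omega, pow_succ]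
    ring
  have h3 : bf (b + 1) (fun j => s * (if j ≤ b then β j else 0) +
      t * (if 1 ≤ j then β (j - 1) else 0)) F G =
      C s * ∑ j ∈ Finset.range (b + 2), C (if j ≤ b then β j else 0) * (G ^ j * F ^ (b + 1 - j)) +
      C t * ∑ j ∈ Finset.range (b + 2),
        C (if 1 ≤ j then β (j - 1) else 0) * (G ^ j * F ^ (b + 1 - j)) := by
    unfold bf
    rw [Finset.mul_sum, Finset.mul_sum, ← Finset.sum_add_distrib]
    refine Finset.sum_congr rfl fun j _ => ?_
    rw [map_add, map_mul, map_mul]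
    ring
  rw [h3, h1, h2]
  ring

theorem bf_ne_zero {b : ℕ} {β : ℕ → ℂ} {F G : MvPolynomial I ℂ} (h : bf b β F G ≠ 0) :
    ∃ j ≤ b, β j ≠ 0 := by
  by_contra hcon
  push Not at hcon
  apply h
  unfold bf
  refine Finset.sum_eq_zero fun j hj => ?_
  rw [hcon j (by have := Finset.mem_range.1 hj; omega), map_zero, zero_mul]

private theorem BinF_succ (b : ℕ) (β : ℕ → ℂ) (F G : MvPolynomial I ℂ) :
    bf (b + 1) β F G = F * bf b β F G + C (β (b + 1)) * G ^ (b + 1) := by
  unfold bf
  rw [Finset.sum_range_succ, Nat.sub_self, pow_zero, mul_one, Finset.mul_sum]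
  congr 1
  refine Finset.sum_congr rfl fun j hj => ?_
  have hj' : j ≤ b := by have := Finset.mem_range.1 hj; omega
  rw [show b + 1 - j = (b - j) + 1 by omega, pow_succ]
  ring

private theorem BinF_congr (b : ℕ) (α β : ℕ → ℂ) (F G : MvPolynomial I ℂ)
    (h : ∀ j ≤ b, α j = β j) : bf b α F G = bf b β F G := by
  unfold bf
  refine Finset.sum_congr rfl fun j hj => ?_
  rw [h j (by have := Finset.mem_range.1 hj; omega)]

private theorem BinF_rem (F G : MvPolynomial I ℂ) (s t : ℂ) (ht : t ≠ 0) (b : ℕ) :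
    ∀ β : ℕ → ℂ, ∃ (q : ℕ → ℂ) (ρ : ℂ),
      bf (b + 1) β F G = (C s * F + C t * G) * bf b q F G + C ρ * F ^ (b + 1) := by
  induction b with
  | zero =>
    intro β
    refine ⟨fun _ => β 1 / t, β 0 - β 1 / t * s, ?_⟩
    have h1 : (C (β 1) : MvPolynomial I ℂ) = C (β 1 / t) * C t := by
      rw [← map_mul, div_mul_cancel₀ _ ht]
    rw [BinF_succ]
    unfold bf
    simp only [zero_add, Finset.range_one, Finset.sum_singleton, pow_zero, pow_one, mul_one,
      tsub_zero, Nat.sub_self, map_sub, map_mul]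
    rw [h1]
    ring
  | succ b ih =>
    intro β
    obtain ⟨q, ρ, hq⟩ := ih (fun j => if j ≤ b then β j else β (b + 1) - β (b + 2) / t * s)
    refine ⟨fun j => if j ≤ b then q j else β (b + 2) / t, ρ, ?_⟩
    have h1 : (C (β (b + 2)) : MvPolynomial I ℂ) = C (β (b + 2) / t) * C t := by
      rw [← map_mul, div_mul_cancel₀ _ ht]
    have h2 : bf (b + 1) (fun j => if j ≤ b then β j else β (b + 1) - β (b + 2) / t * s) F G =
        bf (b + 1) β F G - C (β (b + 2) / t) * C s * G ^ (b + 1) := by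
      rw [BinF_succ, BinF_succ, if_neg (by omega),
        BinF_congr b (fun j => if j ≤ b then β j else β (b + 1) - β (b + 2) / t * s) β F G
          (fun j hj => by simp only [if_pos hj]), map_sub, map_mul]
      ring
    have h3 : bf (b + 1) (fun j => if j ≤ b then q j else β (b + 2) / t) F G =
        F * bf b q F G + C (β (b + 2) / t) * G ^ (b + 1) := by
      rw [BinF_succ, if_neg (by omega),
        BinF_congr b (fun j => if j ≤ b then q j else β (b + 2) / t) q F G
          (fun j hj => by simp only [if_pos hj])]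
    rw [h2] at hq
    have h4 : bf (b + 1) β F G = (C s * F + C t * G) * bf b q F G + C ρ * F ^ (b + 1) +
        C (β (b + 2) / t) * C s * G ^ (b + 1) := by
      rw [← hq]; ring
    rw [BinF_succ (b + 1), h3, h4, h1]
    ring

theorem bf_div {f F G : MvPolynomial I ℂ} (hf : Irreducible f) (hfF : ¬ f ∣ F) {b : ℕ}
    {β : ℕ → ℂ} (hβ : ∃ j ≤ b, β j ≠ 0) (hB : f ∣ bf b β F G) {s t : ℂ} (hst : s ≠ 0 ∨ t ≠ 0)
    (hM : f ∣ C s * F + C t * G) :
    ∃ (b' : ℕ) (β' : ℕ → ℂ), b = b' + 1 ∧ bf b β F G = (C s * F + C t * G) * bf b' β' F G := by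
  have hunit : ∀ c : ℂ, c ≠ 0 → IsUnit (C c : MvPolynomial I ℂ) := fun c hc =>
    (IsUnit.mk0 c hc).map (C : ℂ →+* MvPolynomial I ℂ)
  have hnC : ∀ c : ℂ, f ∣ C c → c = 0 := by
    intro c hc
    by_contra hc0
    exact hf.not_isUnit (isUnit_of_dvd_unit hc (hunit c hc0))
  have ht : t ≠ 0 := by
    rintro rfl
    rcases hst with hs | hs
    · rw [map_zero, zero_mul, add_zero] at hM
      exact hfF ((hunit s hs).dvd_mul_left.1 hM)
    · exact hs rfl
  cases b with
  | zero =>
    exfalso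
    obtain ⟨j, hj, hj0⟩ := hβ
    have hj' : j = 0 := by omega
    subst hj'
    apply hj0
    apply hnC
    have h1 : bf 0 β F G = C (β 0) := by
      unfold bf
      simp
    rwa [h1] at hB
  | succ b =>
    obtain ⟨q, ρ, hq⟩ := BinF_rem F G s t ht b β
    have h1 : f ∣ C ρ * F ^ (b + 1) := by
      rw [hq] at hB
      exact (dvd_add_right (dvd_mul_of_dvd_left hM _)).1 hB
    have hρ : ρ = 0 := by
      rcases hf.prime.dvd_or_dvd h1 with h2 | h2
      · exact hnC ρ h2
      · exact absurd (hf.prime.dvd_of_dvd_pow h2) hfF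
    refine ⟨b, q, rfl, ?_⟩
    rw [hq, hρ, map_zero, zero_mul, add_zero]

end Pool.Agent.H21.JQ
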