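import Pool.Agent.H21.JQ.Base

/-!
# Module DimW (about 80 lines): independent weights give independent gradients

PROOF. For generic `p` no `f j` vanishes at `p.1` (`gen_fst` for the product, or `Filter.eventually_all`); with `h` (`Filter.Frequently.and_eventually`, `.exists`) take such a `p` and `L`. The vectors `grd (f j) p.1 ∈ L` are linearly independent: let `∑ j, b j • grd (f j) p.1 = 0` and
`c j = b j * eval p.1 (f j)`. Pairing with the columns of the matrix at `p.1`: `∑ i, grd (f j) p.1 i * eval p.1 (𝒜 i k) = eval p.1 (gj 𝒜 (f j) k) = χ j k * eval p.1 (f j)`, so `∑ j, c j * χ j k = 0`; pairing with `p.1` (`euler` evaluated): `∑ j, c j * e j = 0`. So `c = 0`, `b = 0`. Hence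
`card J ≤ finrank L ≤ c0` (`LinearIndependent.fintype_card_le_finrank` in `L`).
-/

namespace Pool.Agent.H21.JQ

open MvPolynomial Module Pool.Agent.H4.JK Pool.Agent.H21.JN Pool.Agent.H21.JP

variable {I : Type} [Fintype I] [DecidableEq I]

theorem card_le_of_indep {𝒜 : Matrix I I (MvPolynomial I ℂ)} {J : Type} [Fintype J]
    {f : J → MvPolynomial I ℂ} {χ : J → I → ℂ} {e : J → ℕ} (hf0 : ∀ j, f j ≠ 0)
    (hSI : ∀ j, SI 𝒜 (χ j) (f j)) (hhom : ∀ j, (f j).IsHomogeneous (e j)) (c0 : ℕ)
    (h : ∃ᶠ p in gen I, ∃ L : Submodule ℂ (I → ℂ), finrank ℂ L ≤ c0 ∧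
      ∀ j, grd (f j) p.1 ∈ L)
    (hind : ∀ c : J → ℂ, (∀ i, ∑ j, c j * χ j i = 0) → ∑ j, c j * (e j : ℂ) = 0 → c = 0) :
    Fintype.card J ≤ c0 := by
  classical
  have hev : ∀ᶠ p in gen I, ∀ j, eval p.1 (f j) ≠ 0 :=
    Filter.eventually_all.2 fun j => gen_fst (hf0 j)
  obtain ⟨p, ⟨L, hL, hmem⟩, hne⟩ := (h.and_eventually hev).exists
  have hli : LinearIndependent ℂ (fun j => (⟨grd (f j) p.1, hmem j⟩ : L)) := by
    rw [Fintype.linearIndependent_iff]
    intro b hb
    have hb' : ∀ i, ∑ j, b j * grd (f j) p.1 i = 0 := by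
      intro i
      have h1 := congrArg (fun v : L => (v : I → ℂ) i) hb
      simpa [Finset.sum_apply, smul_eq_mul] using h1
    have hpair : ∀ j k, ∑ i, grd (f j) p.1 i * eval p.1 (𝒜 i k) = χ j k * eval p.1 (f j) := by
      intro j k
      have h1 := congrArg (eval p.1) (hSI j k)
      rw [map_mul, eval_C, gj, map_sum] at h1
      rw [← h1]
      refine Finset.sum_congr rfl fun i _ => ?_
      rw [map_mul, grd]
    have heul : ∀ j, ∑ i, p.1 i * grd (f j) p.1 i = (e j : ℂ) * eval p.1 (f j) := by
      intro j
      have h1 := congrArg (eval p.1) (euler (hhom j))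
      rw [map_mul, map_natCast, map_sum] at h1
      rw [← h1]
      refine Finset.sum_congr rfl fun i _ => ?_
      rw [map_mul, eval_X, grd]
    have hc := hind (fun j => b j * eval p.1 (f j)) ?_ ?_
    · intro j
      have h1 := congrFun hc j
      simp only [Pi.zero_apply] at h1
      exact (mul_eq_zero.1 h1).resolve_right (hne j)
    · intro k
      calc ∑ j, b j * eval p.1 (f j) * χ j k
          = ∑ j, b j * ∑ i, grd (f j) p.1 i * eval p.1 (𝒜 i k) := by
            refine Finset.sum_congr rfl fun j _ => ?_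
            rw [hpair]; ring
        _ = ∑ j, ∑ i, b j * grd (f j) p.1 i * eval p.1 (𝒜 i k) := by
            refine Finset.sum_congr rfl fun j _ => ?_
            rw [Finset.mul_sum]
            refine Finset.sum_congr rfl fun i _ => ?_
            ring
        _ = ∑ i, (∑ j, b j * grd (f j) p.1 i) * eval p.1 (𝒜 i k) := by
            rw [Finset.sum_comm]
            refine Finset.sum_congr rfl fun i _ => ?_
            rw [Finset.sum_mul]
        _ = 0 := by
            refine Finset.sum_eq_zero fun i _ => ?_
            rw [hb', zero_mul]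
    · calc ∑ j, b j * eval p.1 (f j) * (e j : ℂ)
          = ∑ j, b j * ∑ i, p.1 i * grd (f j) p.1 i := by
            refine Finset.sum_congr rfl fun j _ => ?_
            rw [heul]; ring
        _ = ∑ j, ∑ i, p.1 i * (b j * grd (f j) p.1 i) := by
            refine Finset.sum_congr rfl fun j _ => ?_
            rw [Finset.mul_sum]
            refine Finset.sum_congr rfl fun i _ => ?_
            ring
        _ = ∑ i, p.1 i * (∑ j, b j * grd (f j) p.1 i) := by
            rw [Finset.sum_comm]
            refine Finset.sum_congr rfl fun i _ => ?_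
            rw [Finset.mul_sum]
        _ = 0 := by
            refine Finset.sum_eq_zero fun i _ => ?_
            rw [hb', mul_zero]
  exact (hli.fintype_card_le_finrank).trans hL

end Pool.Agent.H21.JQ
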