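import Pool.Agent.H21.JP.Wr
import Pool.Agent.H21.JN.Hom

/-!
# Module Mul3 (about 120 lines): at most three members of a pencil are powers

PROOF. `f j` is homogeneous (`hom_of_dvd`, JN/Hom: it divides the nonzero homogeneous polynomial `C u * f j ^ e j` of degree `N`, which is not zero because `u ≠ 0`) of degree `d j ≥ 1` (`irreducible_totalDegree`), `e j * d j = N`. (1) `f j ^ (e j - 1) ∣ wr F G i` for all `i`: with
`M = C s * F + C t * G = C u * f j ^ e j`, `f j ^ (e j - 1)` divides `M` and `pderiv i M`. `C t * wr F G i = F * pderiv i M - M * pderiv i F` and `C s * wr F G i = M * pderiv i G - G * pderiv i M`; `(s, t) ≠ 0` because `M ≠ 0`. (2) The `f j` are pairwise not associated primes, so the product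
`∏ j, f j ^ (e j - 1)` divides `wr F G i` (`Finset.prod_dvd_of_isRelPrime`, `IsRelPrime.pow`) for an `i` with `wr F G i ≠ 0` (`wr_ne`), of degree `2 N - 1` (`wr_hom`, `np_pos`). So `∑ j, (e j - 1) * d j ≤ 2 N - 1`. (3) `(e j - 1) * d j = N - d j` and `2 * d j ≤ e j * d j = N`, so
`N ≤ 2 * ((e j - 1) * d j)`; hence `card J * N ≤ 2 * (2 N - 1) < 4 N` and `card J ≤ 3`.
-/

namespace Pool.Agent.H21.JQ

open MvPolynomial Pool.Agent.H4.JK Pool.Agent.H21.JN Pool.Agent.H21.JP

variable {I : Type} [Fintype I] [DecidableEq I]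

private theorem Mul3_dvd {N : ℕ} {F G f : MvPolynomial I ℂ} {e : ℕ} (he : 2 ≤ e)
    (hf0 : f ≠ 0) {s t u : ℂ} (hu : u ≠ 0) (hM : C s * F + C t * G = C u * f ^ e) (i : I) :
    f ^ (e - 1) ∣ wr F G i := by
  have hM0 : C u * f ^ e ≠ 0 := mul_ne_zero (C_ne_zero.2 hu) (pow_ne_zero e hf0)
  have d1 : f ^ (e - 1) ∣ C u * f ^ e :=
    (pow_dvd_pow f (Nat.sub_le e 1)).mul_left _
  have d2 : f ^ (e - 1) ∣ pderiv i (C u * f ^ e) := by
    rw [pderiv_mul, pderiv_C, zero_mul, zero_add, Derivation.leibniz_pow]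
    refine Dvd.dvd.mul_left ?_ _
    rw [nsmul_eq_mul, smul_eq_mul]
    exact (dvd_mul_right _ _).mul_left _
  rw [← hM] at d1 d2
  have hp : pderiv i (C s * F + C t * G) = C s * pderiv i F + C t * pderiv i G := by
    rw [map_add, pderiv_mul, pderiv_mul, pderiv_C, pderiv_C]
    ring
  by_cases ht : t = 0
  · have hs : s ≠ 0 := by
      rintro rfl
      apply hM0
      rw [← hM, ht]
      simp
    have h1 : f ^ (e - 1) ∣ C s * wr F G i := by
      have h2 : C s * wr F G i = (C s * F + C t * G) * pderiv i G -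
          G * pderiv i (C s * F + C t * G) := by
        rw [hp, wr]
        ring
      rw [h2]
      exact dvd_sub (d1.mul_right _) (d2.mul_left _)
    have h3 : f ^ (e - 1) ∣ C s⁻¹ * (C s * wr F G i) := h1.mul_left _
    rwa [← mul_assoc, ← C_mul, inv_mul_cancel₀ hs, C_1, one_mul] at h3
  · have h1 : f ^ (e - 1) ∣ C t * wr F G i := by
      have h2 : C t * wr F G i = F * pderiv i (C s * F + C t * G) -
          (C s * F + C t * G) * pderiv i F := by
        rw [hp, wr]
        ring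
      rw [h2]
      exact dvd_sub (d2.mul_left _) (d1.mul_right _)
    have h3 : f ^ (e - 1) ∣ C t⁻¹ * (C t * wr F G i) := h1.mul_left _
    rwa [← mul_assoc, ← C_mul, inv_mul_cancel₀ ht, C_1, one_mul] at h3

theorem pow_members {N : ℕ} {F G : MvPolynomial I ℂ} (hF : F.IsHomogeneous N)
    (hG : G.IsHomogeneous N) (hnp : NP F G) {J : Type} [Fintype J]
    {f : J → MvPolynomial I ℂ} {e : J → ℕ} (he : ∀ j, 2 ≤ e j) (hirr : ∀ j, Irreducible (f j))
    (hne : ∀ j j', j ≠ j' → ¬ f j ∣ f j')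
    (hm : ∀ j, ∃ s t u : ℂ, u ≠ 0 ∧ C s * F + C t * G = C u * f j ^ e j) :
    Fintype.card J ≤ 3 := by
  classical
  have hN : 1 ≤ N := np_pos hnp hF hG
  have key : ∀ j, (f j).IsHomogeneous (f j).totalDegree ∧ (f j).totalDegree * e j = N ∧
      ∀ i, f j ^ (e j - 1) ∣ wr F G i := by
    intro j
    obtain ⟨s, t, u, hu, hM⟩ := hm j
    have hf0 := (hirr j).ne_zero
    have hM0 : C u * f j ^ e j ≠ 0 := mul_ne_zero (C_ne_zero.2 hu) (pow_ne_zero _ hf0)
    have hMh : (C u * f j ^ e j).IsHomogeneous N := by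
      rw [← hM]
      have h1 := (isHomogeneous_C I s).mul hF
      have h2 := (isHomogeneous_C I t).mul hG
      rw [zero_add] at h1 h2
      exact h1.add h2
    have hdv : f j ∣ C u * f j ^ e j :=
      (dvd_pow_self (f j) (by have := he j; omega)).mul_left _
    have hfh := hom_of_dvd hMh hM0 hdv
    refine ⟨hfh, ?_, fun i => Mul3_dvd (N := N) (he j) hf0 hu hM i⟩
    have h3 := (isHomogeneous_C I u).mul (hfh.pow (e j))
    rw [zero_add] at h3
    exact h3.inj_right hMh hM0
  obtain ⟨i, hi⟩ := wr_ne hnp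
  have hprod : ∏ j, f j ^ (e j - 1) ∣ wr F G i := by
    apply Finset.prod_dvd_of_isRelPrime
    · intro j _ j' _ hjj
      exact (((hirr j).isRelPrime_iff_not_dvd).2 (hne j j' hjj)).pow
    · intro j _
      exact (key j).2.2 i
  have hdeg : ∑ j, (f j).totalDegree * (e j - 1) ≤ 2 * N - 1 := by
    have h1 : (∏ j, f j ^ (e j - 1)).IsHomogeneous (∑ j, (f j).totalDegree * (e j - 1)) :=
      IsHomogeneous.prod _ _ _ fun j _ => (key j).1.pow _
    have h2 : ∏ j, f j ^ (e j - 1) ≠ 0 :=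
      Finset.prod_ne_zero_iff.2 fun j _ => pow_ne_zero _ (hirr j).ne_zero
    obtain ⟨r, hr⟩ := hprod
    have hr0 : r ≠ 0 := by
      rintro rfl
      exact hi (by rw [hr, mul_zero])
    have h3 := totalDegree_mul_of_isDomain h2 hr0
    rw [← hr, h1.totalDegree h2, (wr_hom hF hG hN i).totalDegree hi] at h3
    omega
  have hlow : ∀ j, N ≤ 2 * ((f j).totalDegree * (e j - 1)) := by
    intro j
    have h1 := (key j).2.1
    have h2 := he j
    obtain ⟨a, ha⟩ : ∃ a, e j = a + 2 := ⟨e j - 2, by omega⟩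
    rw [ha] at h1 ⊢
    have h3 : a + 2 - 1 = a + 1 := by omega
    rw [h3, ← h1]
    nlinarith
  have hsum : Fintype.card J * N ≤ 2 * (2 * N - 1) := by
    calc Fintype.card J * N = ∑ _j : J, N := by simp
      _ ≤ ∑ j, 2 * ((f j).totalDegree * (e j - 1)) := Finset.sum_le_sum fun j _ => hlow j
      _ = 2 * ∑ j, (f j).totalDegree * (e j - 1) := by rw [Finset.mul_sum]
      _ ≤ 2 * (2 * N - 1) := Nat.mul_le_mul_left _ hdeg
  by_contra hc
  have h4 : 4 ≤ Fintype.card J := by omega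
  have h5 : 4 * N ≤ Fintype.card J * N := Nat.mul_le_mul_right _ h4
  omega

end Pool.Agent.H21.JQ
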