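import Pool.Agent.H21.JQ.Val
import Pool.Agent.H21.JQ.DimW
import Pool.Agent.H21.JQ.Mul3

/-!
# Module Cnt (about 220 lines): the number of the exceptional semi-invariants

PROOF. By `irr_members` there is `t0` with `F' = G + C t0 * F` irreducible; replace the pair by `F'`, `G' = F` (`NP`, weight, degree are the same; the members of the pencils are the same). Then `¬ f j ∣ F'`: otherwise they are associated and `totalDegree (f j) = N`, against `hdeg`. So
assume `¬ f j ∣ F` for all `j`. For `M = C s * F + C t * G`, `(s, t) ≠ 0` (a member; it is not zero and not a unit, `1 ≤ N` by `np_pos`, so it has an irreducible factor). Call `S : Finset J` good if every member has an irreducible factor `q` with `¬ q ∣ f j` for all `j ∈ S`. `∅` is good. Let `S` be a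
good set with the largest number of elements. `S.card ≤ c0`: `card_le_of_indep` and `indep_weights` for the subtype `S`. For `r ∉ S` the set `insert r S` is not good: there is a member `M r` all of whose irreducible factors `q` divide some `f j`, `j ∈ insert r S`; as `S` is good, some `q0 ∣ M r` divides
no `f j`, `j ∈ S`, so `q0 ∣ f r` and (associated) (i) `f r ∣ M r`. (ii) for `r ≠ r'` outside `S`, `M r` and `M r'` are not proportional: otherwise `f r ∣ M r'`, so `f r ∣ f j` for some `j ∈ insert r' S`, `j = r` by `hne`, impossible. (iii) an irreducible polynomial which divides `M r` and `M r'`, `r ≠ r'`, divides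
`F` and `G` (the coefficients are not proportional), impossible by `min_coprime`. Let `R1` be the set of the `r ∉ S` such that some `f j`, `j ∈ S`, divides `M r`; `r ↦` such a `j` is injective by (iii): `R1.card ≤ S.card ≤ c0`. For the other `r ∉ S` (set `R2`) all irreducible factors of `M r` are associated to
`f r`: write `M r = f r ^ e * g`, `¬ f r ∣ g`; `g` is a unit (an irreducible factor `q` of `g` divides `M r`, so `q ∣ f j` with `j = r`, then `f r ∣ g`, or `j ∈ S`, then `f j ∣ M r`, both impossible), so `M r = C u * f r ^ e`, `u ≠ 0`; `e ≥ 1` by (i) and `e ≠ 1` because `totalDegree (f r) ≠ N`; so `2 ≤ e` and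
`pow_members` gives `R2.card ≤ 3`. Total: `card J ≤ S.card + R1.card + R2.card ≤ 2 c0 + 3`.
-/

namespace Pool.Agent.H21.JQ

open MvPolynomial Module Pool.Agent.H4.JK Pool.Agent.H21.JN Pool.Agent.H21.JP

variable {I : Type} [Fintype I] [DecidableEq I]

private theorem Cnt_unit_C {a : ℂ} (ha : a ≠ 0) : IsUnit (C a : MvPolynomial I ℂ) :=
  (isUnit_iff_ne_zero.2 ha).map C

private theorem Cnt_dvd_of_C {q P : MvPolynomial I ℂ} {a : ℂ} (ha : a ≠ 0) (h : q ∣ C a * P) :
    q ∣ P := by
  obtain ⟨g, hg⟩ := h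
  refine ⟨C a⁻¹ * g, ?_⟩
  have h1 : (C a⁻¹ * C a : MvPolynomial I ℂ) = 1 := by
    rw [← C_mul, inv_mul_cancel₀ ha, C_1]
  calc P = (C a⁻¹ * C a) * P := by rw [h1, one_mul]
    _ = C a⁻¹ * (C a * P) := by ring
    _ = q * (C a⁻¹ * g) := by rw [hg]; ring

private theorem Cnt_unit_eq {g : MvPolynomial I ℂ} (hg : IsUnit g) : ∃ u : ℂ, u ≠ 0 ∧ g = C u := by
  obtain ⟨g', hg'⟩ := hg.exists_right_inv
  have hg0 : g ≠ 0 := by
    rintro rfl
    rw [zero_mul] at hg'
    exact zero_ne_one hg'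
  have hg'0 : g' ≠ 0 := by
    rintro rfl
    rw [mul_zero] at hg'
    exact zero_ne_one hg'
  have h1 := totalDegree_mul_of_isDomain hg0 hg'0
  rw [hg', totalDegree_one] at h1
  have h2 : g.totalDegree = 0 := by omega
  rw [totalDegree_eq_zero_iff_eq_C] at h2
  refine ⟨coeff 0 g, ?_, h2⟩
  intro h3
  rw [h3, C_0] at h2
  exact hg0 h2

private theorem Cnt_core {𝒜 : Matrix I I (MvPolynomial I ℂ)} (hA : 𝒜.transpose = -𝒜)
    (hlin : Lin 𝒜) (hpl : Parl 𝒜) {N : ℕ} (hmin : ∀ n < N, ¬ Pr 𝒜 n)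
    {F G : MvPolynomial I ℂ} {χ0 : I → ℂ} (hF : F.IsHomogeneous N) (hG : G.IsHomogeneous N)
    (hnp : NP F G) (sF : SI 𝒜 χ0 F) (sG : SI 𝒜 χ0 G)
    {J : Type} [Fintype J] [DecidableEq J] {f : J → MvPolynomial I ℂ} {χ : J → I → ℂ}
    (hirr : ∀ j, Irreducible (f j)) (hhom : ∀ j, (f j).IsHomogeneous (f j).totalDegree)
    (hSI : ∀ j, SI 𝒜 (χ j) (f j)) (hne : ∀ j j', j ≠ j' → ¬ f j ∣ f j')
    (hdeg : ∀ j, (f j).totalDegree ≠ N) (hFf : ∀ j, ¬ f j ∣ F) (c0 : ℕ)
    (h : ∃ᶠ p in gen I, ∃ L : Submodule ℂ (I → ℂ), finrank ℂ L ≤ c0 ∧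
      ∀ j, grd (f j) p.1 ∈ L) : Fintype.card J ≤ 2 * c0 + 3 := by
  classical
  have hN1 : 1 ≤ N := np_pos hnp hF hG
  have hMh : ∀ s t : ℂ, (C s * F + C t * G).IsHomogeneous N := by
    intro s t
    have h1 := (isHomogeneous_C I s).mul hF
    have h2 := (isHomogeneous_C I t).mul hG
    rw [zero_add] at h1 h2
    exact h1.add h2
  have hM0 : ∀ s t : ℂ, (s ≠ 0 ∨ t ≠ 0) → C s * F + C t * G ≠ 0 := by
    intro s t hst h0
    obtain ⟨h1, h2⟩ := hnp s t h0
    rcases hst with h3 | h3
    · exact h3 h1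
    · exact h3 h2
  have hMu : ∀ s t : ℂ, (s ≠ 0 ∨ t ≠ 0) → ¬ IsUnit (C s * F + C t * G) := by
    intro s t hst hu
    obtain ⟨u, hu0, hu⟩ := Cnt_unit_eq hu
    have h1 := (hMh s t).totalDegree (hM0 s t hst)
    rw [hu, totalDegree_C] at h1
    omega
  have hassoc : ∀ {q : MvPolynomial I ℂ} {j : J}, Irreducible q → q ∣ f j → f j ∣ q := by
    intro q j hq hd
    exact (hq.associated_of_dvd (hirr j) hd).symm.dvd
  let Good : Finset J → Prop := fun S => ∀ s t : ℂ, (s ≠ 0 ∨ t ≠ 0) →
      ∃ q, Irreducible q ∧ q ∣ C s * F + C t * G ∧ ∀ j ∈ S, ¬ q ∣ f j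
  have hGood0 : Good ∅ := by
    intro s t hst
    obtain ⟨q, hq, hqd⟩ := WfDvdMonoid.exists_irreducible_factor (hMu s t hst) (hM0 s t hst)
    exact ⟨q, hq, hqd, fun j hj => absurd hj (Finset.notMem_empty j)⟩
  obtain ⟨S, hSm, hSmax⟩ := Finset.exists_max_image
    ((Finset.univ : Finset (Finset J)).filter Good) Finset.card
    ⟨∅, Finset.mem_filter.2 ⟨Finset.mem_univ _, hGood0⟩⟩
  have hSG : Good S := (Finset.mem_filter.1 hSm).2
  have hSc : S.card ≤ c0 := by
    have h1 : Fintype.card {j // j ∈ S} ≤ c0 := by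
      refine card_le_of_indep (𝒜 := 𝒜) (f := fun j : {j // j ∈ S} => f j)
        (χ := fun j : {j // j ∈ S} => χ j)
        (e := fun j : {j // j ∈ S} => (f j).totalDegree)
        (fun j => (hirr j).ne_zero) (fun j => hSI j) (fun j => hhom j) c0
        (h.mono ?_) ?_
      · rintro p ⟨L, hL, hLm⟩
        exact ⟨L, hL, fun j => hLm j⟩
      · intro c hc1 hc2
        exact indep_weights hA hlin hpl hmin hF hG hnp sF sG
          (f := fun j : {j // j ∈ S} => f j) (χ := fun j : {j // j ∈ S} => χ j)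
          (fun j => hirr j) (fun j => hhom j) (fun j => hSI j)
          (fun j j' hjj => hne j j' (fun h2 => hjj (Subtype.ext h2)))
          (fun j => hFf j)
          (fun s t hst => by
            obtain ⟨q, hq, hqd, hqS⟩ := hSG s t hst
            exact ⟨q, hq, hqd, fun j => hqS j j.2⟩) c hc1 hc2
    rwa [Fintype.card_coe] at h1
  have hbad : ∀ r : J, ∃ st : ℂ × ℂ, r ∉ S → ((st.1 ≠ 0 ∨ st.2 ≠ 0) ∧
      ∀ q, Irreducible q → q ∣ C st.1 * F + C st.2 * G → ∃ j ∈ insert r S, q ∣ f j) := by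
    intro r
    by_cases hr : r ∈ S
    · exact ⟨(0, 0), fun h1 => absurd hr h1⟩
    · have h1 : ¬ Good (insert r S) := by
        intro h2
        have h3 := hSmax (insert r S) (Finset.mem_filter.2 ⟨Finset.mem_univ _, h2⟩)
        rw [Finset.card_insert_of_notMem hr] at h3
        omega
      simp only [Good] at h1
      push Not at h1
      obtain ⟨s, t, hst, h2⟩ := h1
      exact ⟨(s, t), fun _ => ⟨hst, fun q hq hqd => h2 q hq hqd⟩⟩
  choose st hst using hbad
  set M : J → MvPolynomial I ℂ := fun r => C (st r).1 * F + C (st r).2 * G with hM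
  have hne0 : ∀ r, r ∉ S → ((st r).1 ≠ 0 ∨ (st r).2 ≠ 0) := fun r hr => (hst r hr).1
  have hfac : ∀ r, r ∉ S → ∀ q, Irreducible q → q ∣ M r → ∃ j ∈ insert r S, q ∣ f j :=
    fun r hr => (hst r hr).2
  have hMr0 : ∀ r, r ∉ S → M r ≠ 0 := fun r hr => hM0 _ _ (hne0 r hr)
  have hdiv : ∀ r, r ∉ S → f r ∣ M r := by
    intro r hr
    obtain ⟨q, hq, hqd, hqS⟩ := hSG _ _ (hne0 r hr)
    obtain ⟨j, hj, hqj⟩ := hfac r hr q hq hqd
    rcases Finset.mem_insert.1 hj with h1 | h1
    · rw [h1] at hqj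
      exact (hassoc hq hqj).trans hqd
    · exact absurd hqj (hqS j h1)
  have hprop : ∀ r r', r ∉ S → r' ∉ S → r ≠ r' → ¬ f r ∣ M r' := by
    intro r r' hr hr' hrr hd
    obtain ⟨j, hj, hfj⟩ := hfac r' hr' (f r) (hirr r) hd
    have h1 : r = j := by
      by_contra h2
      exact hne r j h2 hfj
    rw [← h1] at hj
    rcases Finset.mem_insert.1 hj with h2 | h2
    · exact hrr h2
    · exact hr h2
  have hdet : ∀ r r', r ∉ S → r' ∉ S → r ≠ r' →
      (st r).1 * (st r').2 - (st r').1 * (st r).2 ≠ 0 := by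
    intro r r' hr hr' hrr h0
    apply hprop r r' hr hr' hrr
    rcases hne0 r hr with h1 | h1
    · apply Cnt_dvd_of_C h1
      have h2 : C (st r).1 * M r' = C (st r').1 * M r := by
        have h3 : (C ((st r).1 * (st r').2 - (st r').1 * (st r).2) : MvPolynomial I ℂ) = 0 := by
          rw [h0, C_0]
        rw [C_sub, C_mul, C_mul] at h3
        simp only [hM]
        linear_combination G * h3
      rw [h2]
      exact (hdiv r hr).mul_left _
    · apply Cnt_dvd_of_C h1
      have h2 : C (st r).2 * M r' = C (st r').2 * M r := by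
        have h3 : (C ((st r).1 * (st r').2 - (st r').1 * (st r).2) : MvPolynomial I ℂ) = 0 := by
          rw [h0, C_0]
        rw [C_sub, C_mul, C_mul] at h3
        simp only [hM]
        linear_combination -F * h3
      rw [h2]
      exact (hdiv r hr).mul_left _
  have hcom : ∀ r r', r ∉ S → r' ∉ S → r ≠ r' → ∀ q, Irreducible q → q ∣ M r → q ∣ M r' →
      False := by
    intro r r' hr hr' hrr q hq h1 h2
    have h3 := hdet r r' hr hr' hrr
    refine min_coprime hlin hmin hF hG hnp sF sG hq ?_ ?_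
    · apply Cnt_dvd_of_C h3
      have h4 : C ((st r).1 * (st r').2 - (st r').1 * (st r).2) * F =
          C (st r').2 * M r - C (st r).2 * M r' := by
        rw [C_sub, C_mul, C_mul]
        simp only [hM]
        ring
      rw [h4]
      exact dvd_sub (h1.mul_left _) (h2.mul_left _)
    · apply Cnt_dvd_of_C h3
      have h4 : C ((st r).1 * (st r').2 - (st r').1 * (st r).2) * G =
          C (st r).1 * M r' - C (st r').1 * M r := by
        rw [C_sub, C_mul, C_mul]
        simp only [hM]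
        ring
      rw [h4]
      exact dvd_sub (h2.mul_left _) (h1.mul_left _)
  -- the two kinds of the remaining indices
  have hR1 : (Sᶜ.filter fun r => ∃ j ∈ S, f j ∣ M r).card ≤ S.card := by
    have h1 : ∀ r : J, ∃ j : J, r ∈ Sᶜ.filter (fun r => ∃ j ∈ S, f j ∣ M r) →
        j ∈ S ∧ f j ∣ M r := by
      intro r
      by_cases hr : ∃ j ∈ S, f j ∣ M r
      · obtain ⟨j, hj, hjd⟩ := hr
        exact ⟨j, fun _ => ⟨hj, hjd⟩⟩
      · exact ⟨r, fun h2 => absurd (Finset.mem_filter.1 h2).2 hr⟩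
    choose φ hφ using h1
    refine Finset.card_le_card_of_injOn φ (fun r hr => (hφ r hr).1) ?_
    intro r hr r' hr' hrr
    by_contra hcon
    have h2 := hφ r hr
    have h3 := hφ r' hr'
    rw [← hrr] at h3
    have h4 : r ∉ S := Finset.mem_compl.1 (Finset.mem_filter.1 (Finset.mem_coe.1 hr)).1
    have h5 : r' ∉ S := Finset.mem_compl.1 (Finset.mem_filter.1 (Finset.mem_coe.1 hr')).1
    exact hcom r r' h4 h5 hcon (f (φ r)) (hirr _) h2.2 h3.2
  have hR2 : (Sᶜ.filter fun r => ¬ ∃ j ∈ S, f j ∣ M r).card ≤ 3 := by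
    have hstr : ∀ r : {r // r ∈ Sᶜ.filter fun r => ¬ ∃ j ∈ S, f j ∣ M r}, ∃ (e : ℕ) (u : ℂ),
        2 ≤ e ∧ u ≠ 0 ∧ M r = C u * f r ^ e := by
      rintro ⟨r, hr⟩
      obtain ⟨hr1, hr2⟩ := Finset.mem_filter.1 hr
      have hrS : r ∉ S := Finset.mem_compl.1 hr1
      obtain ⟨e, g, hg, hMg⟩ := WfDvdMonoid.max_power_factor (hMr0 r hrS) (hirr r)
      have hg0 : g ≠ 0 := by
        rintro rfl
        exact hg (dvd_zero _)
      have hgu : IsUnit g := by
        by_contra hnu
        obtain ⟨q, hq, hqg⟩ := WfDvdMonoid.exists_irreducible_factor hnu hg0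
        have hqM : q ∣ M r := by
          rw [hMg]
          exact hqg.mul_left _
        obtain ⟨j, hj, hqj⟩ := hfac r hrS q hq hqM
        have hjq := hassoc hq hqj
        rcases Finset.mem_insert.1 hj with h1 | h1
        · rw [h1] at hjq
          exact hg (hjq.trans hqg)
        · exact hr2 ⟨j, h1, hjq.trans hqM⟩
      obtain ⟨u, hu0, hu⟩ := Cnt_unit_eq hgu
      refine ⟨e, u, ?_, hu0, ?_⟩
      · have hMdeg := (hMh (st r).1 (st r).2).totalDegree (hMr0 r hrS)
        by_contra hlt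
        have he : e = 0 ∨ e = 1 := by omega
        rcases he with he | he
        · rw [he, pow_zero, one_mul] at hMg
          have h1 := hdiv r hrS
          rw [hMg] at h1
          exact (hirr r).not_isUnit (isUnit_of_dvd_unit h1 hgu)
        · rw [he, pow_one] at hMg
          have h1 : (M r).totalDegree = N := hMdeg
          rw [hMg, totalDegree_mul_of_isDomain (hirr r).ne_zero hg0, hu, totalDegree_C,
            add_zero] at h1
          exact hdeg r h1
      · show M r = C u * f r ^ e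
        rw [hMg, hu, mul_comm]
    choose e u he hu hMe using hstr
    have h1 := pow_members hF hG hnp
      (f := fun r : {r // r ∈ Sᶜ.filter fun r => ¬ ∃ j ∈ S, f j ∣ M r} => f r)
      (e := e) he (fun r => hirr r)
      (fun r r' hrr => hne r r' (fun h2 => hrr (Subtype.ext h2)))
      (fun r => ⟨(st r).1, (st r).2, u r, hu r, hMe r⟩)
    rwa [Fintype.card_coe] at h1
  have hsum : Fintype.card J = S.card + Sᶜ.card := by
    rw [Finset.card_compl]
    have := Finset.card_le_univ S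
    omega
  have hsplit := Finset.card_filter_add_card_filter_not (s := Sᶜ) (fun r => ∃ j ∈ S, f j ∣ M r)
  omega

theorem card_le_exc {𝒜 : Matrix I I (MvPolynomial I ℂ)} (hA : 𝒜.transpose = -𝒜)
    (hlin : Lin 𝒜) (hpl : Parl 𝒜) {N : ℕ} (hmin : ∀ n < N, ¬ Pr 𝒜 n) (hN : Pr 𝒜 N)
    {J : Type} [Fintype J] [DecidableEq J] {f : J → MvPolynomial I ℂ} {χ : J → I → ℂ}
    (hirr : ∀ j, Irreducible (f j)) (hhom : ∀ j, (f j).IsHomogeneous (f j).totalDegree)
    (hSI : ∀ j, SI 𝒜 (χ j) (f j)) (hne : ∀ j j', j ≠ j' → ¬ f j ∣ f j')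
    (hdeg : ∀ j, (f j).totalDegree ≠ N) (c0 : ℕ)
    (h : ∃ᶠ p in gen I, ∃ L : Submodule ℂ (I → ℂ), finrank ℂ L ≤ c0 ∧
      ∀ j, grd (f j) p.1 ∈ L) : Fintype.card J ≤ 2 * c0 + 3 := by
  obtain ⟨F, G, χ0, hF, hG, hnp, sF, sG⟩ := hN
  have hfin := irr_members hlin hmin hF hG hnp sF sG
  obtain ⟨t0, ht0⟩ := hfin.exists_notMem
  simp only [Set.mem_setOf_eq, not_not] at ht0
  have hF' : (G + C t0 * F).IsHomogeneous N := by
    have h1 := (isHomogeneous_C I t0).mul hF
    rw [zero_add] at h1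
    exact hG.add h1
  have hnp' : NP (G + C t0 * F) F := by
    intro s t hst
    have h1 := hnp (s * t0 + t) s (by
      rw [C_add, C_mul]
      linear_combination hst)
    refine ⟨h1.2, ?_⟩
    have h2 := h1.1
    rw [h1.2, zero_mul, zero_add] at h2
    exact h2
  have sF' : SI 𝒜 χ0 (G + C t0 * F) := by
    have h1 := si_lin sG sF 1 t0
    rwa [C_1, one_mul] at h1
  refine Cnt_core hA hlin hpl hmin hF' hF hnp' sF' sF hirr hhom hSI hne hdeg ?_ c0 h
  intro j hj
  have h1 : G + C t0 * F ∣ f j := ((hirr j).associated_of_dvd ht0 hj).symm.dvd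
  apply hdeg j
  have h2 := hF'.totalDegree ht0.ne_zero
  obtain ⟨a, ha⟩ := hj
  obtain ⟨b, hb⟩ := h1
  have ha0 : a ≠ 0 := by
    rintro rfl
    rw [mul_zero] at ha
    exact ht0.ne_zero ha
  have hb0 : b ≠ 0 := by
    rintro rfl
    rw [mul_zero] at hb
    exact (hirr j).ne_zero hb
  have h3 := totalDegree_mul_of_isDomain (hirr j).ne_zero ha0
  have h4 := totalDegree_mul_of_isDomain ht0.ne_zero hb0
  rw [← ha] at h3
  rw [← hb] at h4
  omega

end Pool.Agent.H21.JQ
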