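import Pool.Agent.H21.JQ.Base
import Pool.Agent.H21.JN.NecM

/-!
# Module FinC (about 130 lines): finitely many semi-invariants of small degree

PROOFS. `min_coprime`: if `h` divides both, `F = h * F'`, `G = h * G'`; `h` is homogeneous (`hom_of_dvd`, JN/Hom) of degree `d ≥ 1` and a semi-invariant (`si_fac`), `F'`, `G'` are semi-invariants of the
same weight (`si_quo`), homogeneous (`hom_of_dvd`) of the same degree `N - d < N`, and `NP F' G'`: so `Pr 𝒜 (N - d)`, against `hmin`. `fin_classes`: the `f j` are linearly independent by `joint_li` as in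
`nec_m` (Pool/Agent/H21/JN/NecM.lean; the operators `P ↦ gj 𝒜 P i` and `P ↦ ∑ i, X i * pderiv i P`): if `j ≠ j'` have the same weight and degree `n < N` then `NP (f j) (f j')` (`np_irr`), so `Pr 𝒜 n`. They lie in a
space of finite dimension `D` which depends only on `N`: the polynomials of total degree at most `N` (`MvPolynomial.restrictTotalDegree I ℂ N`, or the span of the finitely many monomials
with exponents `≤ N`; for instance the linear map `P ↦ (coeff β P)_β`, `β` in the finite set of the exponents with `β i ≤ N`, is injective on them).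
-/

namespace Pool.Agent.H21.JQ

open MvPolynomial Pool.Agent.H4.JK Pool.Agent.H21.JN Pool.Agent.H21.JP

variable {I : Type} [Fintype I] [DecidableEq I]

theorem min_coprime {𝒜 : Matrix I I (MvPolynomial I ℂ)} (hlin : Lin 𝒜) {N : ℕ}
    (hmin : ∀ n < N, ¬ Pr 𝒜 n) {F G : MvPolynomial I ℂ} {χ : I → ℂ} (hF : F.IsHomogeneous N)
    (hG : G.IsHomogeneous N) (hnp : NP F G) (sF : SI 𝒜 χ F) (sG : SI 𝒜 χ G)
    {h : MvPolynomial I ℂ} (hh : Irreducible h) (h1 : h ∣ F) (h2 : h ∣ G) : False := by
  have hF0 : F ≠ 0 := by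
    rintro rfl
    have h3 := hnp 1 0 (by rw [mul_zero, C_0, zero_mul, zero_add])
    exact one_ne_zero h3.1
  have hG0 : G ≠ 0 := by
    rintro rfl
    have h3 := hnp 0 1 (by rw [mul_zero, C_0, zero_mul, zero_add])
    exact one_ne_zero h3.2
  obtain ⟨ψ, hψ⟩ := si_fac hlin hF0 sF hh h1
  obtain ⟨F', rfl⟩ := h1
  obtain ⟨G', rfl⟩ := h2
  have hh0 := hh.ne_zero
  have hF'0 : F' ≠ 0 := right_ne_zero_of_mul hF0
  have hG'0 : G' ≠ 0 := right_ne_zero_of_mul hG0
  have hdh : 1 ≤ h.totalDegree := by
    by_contra hd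
    have h3 : h.totalDegree = 0 := by omega
    rw [totalDegree_eq_zero_iff_eq_C] at h3
    apply hh.not_isUnit
    rw [h3]
    apply IsUnit.map
    rw [isUnit_iff_ne_zero]
    intro h4
    rw [h4, C_0] at h3
    exact hh0 h3
  have hhF := hom_of_dvd hF hF0 (Dvd.intro_left h rfl : F' ∣ h * F')
  have hhG := hom_of_dvd hG hG0 (Dvd.intro_left h rfl : G' ∣ h * G')
  have hdF : h.totalDegree + F'.totalDegree = N := by
    rw [← totalDegree_mul_of_isDomain hh0 hF'0]
    exact hF.totalDegree hF0
  have hdG : h.totalDegree + G'.totalDegree = N := by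
    rw [← totalDegree_mul_of_isDomain hh0 hG'0]
    exact hG.totalDegree hG0
  have hFG : G'.totalDegree = F'.totalDegree := by omega
  rw [hFG] at hhG
  refine hmin F'.totalDegree (by omega) ⟨F', G', χ - ψ, hhF, hhG, ?_, si_quo hh0 hψ sF,
    si_quo hh0 hψ sG⟩
  intro s t hst
  apply hnp
  linear_combination h * hst

/-- The operator `P ↦ gj 𝒜 P i` as a linear map. -/
private noncomputable def FinC_G (𝒜 : Matrix I I (MvPolynomial I ℂ)) (i : I) :
    MvPolynomial I ℂ →ₗ[ℂ] MvPolynomial I ℂ where
  toFun P := gj 𝒜 P i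
  map_add' := by
    intro P Q
    simp only [gj, map_add, add_mul, Finset.sum_add_distrib]
  map_smul' := by
    intro c P
    simp only [gj, Derivation.map_smul, smul_mul_assoc, Finset.smul_sum, RingHom.id_apply]

/-- Euler's operator as a linear map. -/
private noncomputable def FinC_E (I : Type) [Fintype I] [DecidableEq I] :
    MvPolynomial I ℂ →ₗ[ℂ] MvPolynomial I ℂ where
  toFun P := ∑ i, X i * pderiv i P
  map_add' := by
    intro P Q
    simp only [map_add, mul_add, Finset.sum_add_distrib]
  map_smul' := by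
    intro c P
    simp only [Derivation.map_smul, mul_smul_comm, Finset.smul_sum, RingHom.id_apply]

theorem fin_classes {𝒜 : Matrix I I (MvPolynomial I ℂ)} (N : ℕ) (hmin : ∀ n < N, ¬ Pr 𝒜 n) :
    ∃ D : ℕ, ∀ (J : Type) [Fintype J] (f : J → MvPolynomial I ℂ), (∀ j, Irreducible (f j)) →
      (∀ j, (f j).IsHomogeneous (f j).totalDegree) → (∀ j, (f j).totalDegree < N) →
      (∀ j, ∃ χ : I → ℂ, SI 𝒜 χ (f j)) → (∀ j j', j ≠ j' → ¬ f j ∣ f j') →
      Fintype.card J ≤ D := by
  refine ⟨Module.finrank ℂ (restrictTotalDegree I ℂ N), ?_⟩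
  intro J _ f hirr hhom hdeg hw hdvd
  choose χ hχ using hw
  have hli : LinearIndependent ℂ f := by
    refine joint_li (K := Option I)
      (fun k => k.elim (FinC_E I) (fun i => FinC_G 𝒜 i)) f
      (fun j k => k.elim (((f j).totalDegree : ℕ) : ℂ) (fun i => χ j i))
      (fun j => (hirr j).ne_zero) ?_ ?_
    · intro j k
      cases k with
      | none =>
        show (∑ i, X i * pderiv i (f j) : MvPolynomial I ℂ) = (((f j).totalDegree : ℕ) : ℂ) • f j
        rw [euler (hhom j), MvPolynomial.smul_eq_C_mul, map_natCast]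
      | some i =>
        show gj 𝒜 (f j) i = χ j i • f j
        rw [hχ j i, MvPolynomial.smul_eq_C_mul]
    · intro j j' hjj
      by_contra hne
      have h2 : (((f j).totalDegree : ℕ) : ℂ) = (((f j').totalDegree : ℕ) : ℂ) :=
        congrFun hjj none
      have h3 : χ j' = χ j := funext fun i => (congrFun hjj (some i)).symm
      have h4 : (f j).totalDegree = (f j').totalDegree := by exact_mod_cast h2
      refine hmin (f j).totalDegree (hdeg j) ⟨f j, f j', χ j, hhom j, ?_,
        np_irr (hirr j) (hdvd j j' hne), hχ j, ?_⟩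
      · rw [h4]
        exact hhom j'
      · rw [← h3]
        exact hχ j'
  let g : J → restrictTotalDegree I ℂ N := fun j =>
    ⟨f j, (mem_restrictTotalDegree _ _ _).2 (hdeg j).le⟩
  have hg : LinearIndependent ℂ g := by
    apply LinearIndependent.of_comp (restrictTotalDegree I ℂ N).subtype
    exact hli
  exact hg.fintype_card_le_finrank

end Pool.Agent.H21.JQ
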