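import Pool.Agent.H21.JQ.IrrM
import Pool.Agent.H21.JQ.BinF
import Pool.Agent.H21.JP.AlgR

/-!
# Module InvC (about 250 lines): rational invariants are rational functions of the minimal pencil

PROOF by strong induction on `n` (for all `P, Q`). (1) If `P = 0`: `b = 0`, `β 0 = 1`, `α 0 = 0`. If `P, Q` are proportional (`¬ NP P Q`; `Q ≠ 0`), `P = C a * Q`: `b = 0`, `β 0 = 1`, `α 0 = a`. (2) Otherwise `inv_np` gives `c, P', Q'`, `χ'`, `n' ≤ n`; it
is enough to treat `P', Q'` (multiply by `c`). `wr P' Q'` is a kernel field (`wr_ker`), homogeneous (`wr_hom`, `np_pos`), with `wr_euler`. (3) Let `T` be the set of the `t` with `M t = G + C t * F` irreducible (infinite: `irr_members`). For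
`t ∈ T`: take `t' ≠ t` in `T`; `¬ M t ∣ M t'` (otherwise `M t` divides `F` and `G`, `min_coprime`); `hpar` of `exists_rel` for `f = M t`, `f' = M t'`, and the pair `Q', P'` (or `P', Q'`) is `Parl`; `exists_rel`, `dvd_member` give
`R t = C (s t) * P' + C (s' t) * Q'`, `(s t, s' t) ≠ 0`, with `M t ∣ R t`; `R t ≠ 0` (`NP`). (4) There are `t1 ≠ t2` in `T` with `s t1 * s' t2 - s t2 * s' t1 ≠ 0`: otherwise all `R t` are multiples of one `R t0`, so all `M t`, `t` in a finite subset of `T` with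
`n' + 1` elements, divide `R t0`; they are irreducible and pairwise not associated, so their product divides `R t0` (`Finset.prod_dvd_of_isRelPrime` or primes), a polynomial of degree `n'`, but the product has degree `(n' + 1) * N > n'`. (5) `R t1 = M t1 * P1`,
`R t2 = M t2 * Q1`; `P1`, `Q1` are nonzero semi-invariants of the same weight (`si_lin`, `si_quo`; the `M t` have the weight `χ`), homogeneous (`hom_of_dvd`) of the same degree `n' - N < n` (`1 ≤ N ≤ n'`). So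
`∑ j, 𝒜 i j * wr Q1 P1 j = 0` (`wr_ker`), and the induction hypothesis gives `P1 * B = Q1 * A`, `B = bf b β F G`, `A = bf b α F G`, `B ≠ 0`. Then `R t1 * (M t2 * B) = R t2 * (M t1 * A)`. By (4) `P' = C a * R t1 + C a' * R t2`, `Q' = C d * R t1 + C d' * R t2`; put
`A' = C a * (M t1 * A) + C a' * (M t2 * B)`, `B' = C d * (M t1 * A) + C d' * (M t2 * B)`, binary forms of degree `b + 1` (`bf_mul_lin`, `bf_add`). `Q' * (M t2 * B) = R t2 * B'`, so `B' ≠ 0` (and `bf_ne_zero`), and `P' * (M t2 * B) = R t2 * A'`, so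
`P' * B' * R t2 = P' * Q' * (M t2 * B) = Q' * A' * R t2`; cancel `R t2 ≠ 0`.
-/

namespace Pool.Agent.H21.JQ

open MvPolynomial Pool.Agent.H4.JK Pool.Agent.H21.JN Pool.Agent.H21.JP

variable {I : Type} [Fintype I] [DecidableEq I]

set_option linter.unusedSectionVars false

private theorem invC_Cu {c : ℂ} (hc : c ≠ 0) {f g : MvPolynomial I ℂ} (h : f ∣ C c * g) : f ∣ g := by
  have h1 : f ∣ C c⁻¹ * (C c * g) := h.mul_left _
  rw [← mul_assoc, ← C_mul, inv_mul_cancel₀ hc, C_1, one_mul] at h1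
  exact h1

private theorem invC_hom {F G : MvPolynomial I ℂ} {N : ℕ} (hF : F.IsHomogeneous N)
    (hG : G.IsHomogeneous N) (s t : ℂ) : (C s * F + C t * G).IsHomogeneous N := by
  have h1 := (isHomogeneous_C I s).mul hF
  have h2 := (isHomogeneous_C I t).mul hG
  rw [zero_add] at h1 h2
  exact h1.add h2

private theorem invC_homM {F G : MvPolynomial I ℂ} {N : ℕ} (hF : F.IsHomogeneous N)
    (hG : G.IsHomogeneous N) (t : ℂ) : (G + C t * F).IsHomogeneous N := by
  have h1 := (isHomogeneous_C I t).mul hF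
  rw [zero_add] at h1
  exact hG.add h1

/-- different members do not divide each other. -/
private theorem invC_ndvd {𝒜 : Matrix I I (MvPolynomial I ℂ)} (hlin : Lin 𝒜) {N : ℕ}
    (hmin : ∀ n < N, ¬ Pr 𝒜 n) {F G : MvPolynomial I ℂ} {χ : I → ℂ} (hF : F.IsHomogeneous N)
    (hG : G.IsHomogeneous N) (hnp : NP F G) (sF : SI 𝒜 χ F) (sG : SI 𝒜 χ G) {t t' : ℂ}
    (ht : Irreducible (G + C t * F)) (hne : t ≠ t') : ¬ (G + C t * F) ∣ (G + C t' * F) := by
  intro hd
  have h1 : (G + C t * F) ∣ C (t' - t) * F := by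
    have h2 := dvd_sub hd (dvd_refl (G + C t * F))
    have h3 : G + C t' * F - (G + C t * F) = C (t' - t) * F := by
      rw [C_sub]
      ring
    rwa [h3] at h2
  have h2 : (G + C t * F) ∣ F := invC_Cu (sub_ne_zero.2 hne.symm) h1
  have h3 : (G + C t * F) ∣ G := by
    have h4 := dvd_sub (dvd_refl (G + C t * F)) (h2.mul_left (C t))
    rwa [add_sub_cancel_right] at h4
  exact min_coprime hlin hmin hF hG hnp sF sG ht h2 h3

/-- the multiple of an irreducible member. -/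
private theorem invC_R {𝒜 : Matrix I I (MvPolynomial I ℂ)} (hA : 𝒜.transpose = -𝒜)
    (hlin : Lin 𝒜) (hpl : Parl 𝒜) {N : ℕ} (hmin : ∀ n < N, ¬ Pr 𝒜 n) {F G : MvPolynomial I ℂ}
    {χ : I → ℂ} (hF : F.IsHomogeneous N) (hG : G.IsHomogeneous N) (hnp : NP F G)
    (sF : SI 𝒜 χ F) (sG : SI 𝒜 χ G) {P Q : MvPolynomial I ℂ} {χ' : I → ℂ} {n : ℕ}
    (hP : P.IsHomogeneous n) (hQ : Q.IsHomogeneous n) (hPQ : NP P Q) (sP : SI 𝒜 χ' P)
    (sQ : SI 𝒜 χ' Q) {t t' : ℂ} (ht : Irreducible (G + C t * F)) (hne : t ≠ t') :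
    ∃ u v : ℂ, (u ≠ 0 ∨ v ≠ 0) ∧ (G + C t * F) ∣ C u * P + C v * Q := by
  have hn : 1 ≤ n := np_pos hPQ hP hQ
  have hN : 1 ≤ N := np_pos hnp hF hG
  have hnd := invC_ndvd hlin hmin hF hG hnp sF sG ht hne
  have hM : ∀ u : ℂ, SI 𝒜 χ (G + C u * F) := by
    intro u
    have h1 := si_lin sG sF 1 u
    rwa [C_1, one_mul] at h1
  have hhM : ∀ u : ℂ, (G + C u * F).IsHomogeneous N := fun u => invC_homM hF hG u
  have hpar : ∀ i j, wr (G + C t * F) (G + C t' * F) i * wr P Q j =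
      wr (G + C t * F) (G + C t' * F) j * wr P Q i := by
    apply hpl _ _ (2 * N - 1) (2 * n - 1)
    · exact fun i => wr_hom (hhM t) (hhM t') hN i
    · exact fun i => wr_hom hP hQ hn i
    · exact fun i => wr_ker hA (hM t) (hM t') i
    · exact fun i => wr_ker hA sP sQ i
    · exact wr_euler (hhM t) (hhM t')
    · exact wr_euler hP hQ
  obtain ⟨a, b, c, hc, hrel⟩ := exists_rel hn ht.ne_zero (hhM t) (hhM t') hP hQ hPQ hpar
  exact dvd_member ht hnd hc hrel

private theorem invC_deg {f g : MvPolynomial I ℂ} {a b : ℕ} (hf : f.IsHomogeneous a)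
    (hg : g.IsHomogeneous b) (hg0 : g ≠ 0) (h : f ∣ g) :
    ∃ k, g = f * k ∧ k ≠ 0 ∧ a ≤ b ∧ k.IsHomogeneous (b - a) := by
  obtain ⟨k, hk⟩ := h
  have hf0 : f ≠ 0 := by
    rintro rfl
    exact hg0 (by rw [hk, zero_mul])
  have hk0 : k ≠ 0 := by
    rintro rfl
    exact hg0 (by rw [hk, mul_zero])
  have hkh : k.IsHomogeneous k.totalDegree := hom_of_dvd hg hg0 ⟨f, by rw [hk, mul_comm]⟩
  have h1 : g.totalDegree = f.totalDegree + k.totalDegree := by
    rw [hk, totalDegree_mul_of_isDomain hf0 hk0]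
  rw [hf.totalDegree hf0, hg.totalDegree hg0] at h1
  refine ⟨k, hk, hk0, by omega, ?_⟩
  have h2 : b - a = k.totalDegree := by omega
  rw [h2]
  exact hkh

/-- two multiples of members which are not proportional. -/
private theorem invC_two {N n : ℕ} (hN : 1 ≤ N) {F G P Q : MvPolynomial I ℂ}
    (hF : F.IsHomogeneous N) (hG : G.IsHomogeneous N) (hP : P.IsHomogeneous n)
    (hQ : Q.IsHomogeneous n) (hPQ : NP P Q) {T : Set ℂ} (hT : T.Infinite)
    (hirr : ∀ t ∈ T, Irreducible (G + C t * F))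
    (hnd : ∀ t ∈ T, ∀ t' ∈ T, t ≠ t' → ¬ (G + C t * F) ∣ (G + C t' * F)) (u v : ℂ → ℂ)
    (huv : ∀ t ∈ T, (u t ≠ 0 ∨ v t ≠ 0) ∧ (G + C t * F) ∣ C (u t) * P + C (v t) * Q) :
    ∃ t1 ∈ T, ∃ t2 ∈ T, u t1 * v t2 - u t2 * v t1 ≠ 0 := by
  by_contra hc
  push Not at hc
  obtain ⟨t0, ht0⟩ := hT.nonempty
  have hdv : ∀ t ∈ T, (G + C t * F) ∣ C (u t0) * P + C (v t0) * Q := by
    intro t ht
    have h1 := hc t0 ht0 t ht
    obtain ⟨h2, h3⟩ := huv t ht
    obtain ⟨h4, -⟩ := huv t0 ht0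
    rcases h4 with h4 | h4
    · have h5 : u t ≠ 0 := by
        intro h0
        rw [h0, zero_mul, sub_zero] at h1
        rcases h2 with h2 | h2
        · exact h2 h0
        · exact (mul_ne_zero h4 h2) h1
      apply invC_Cu h5
      have h6 : C (u t) * (C (u t0) * P + C (v t0) * Q) =
          C (u t0) * (C (u t) * P + C (v t) * Q) := by
        have h7 : (C (u t0) * C (v t) : MvPolynomial I ℂ) = C (u t) * C (v t0) := by
          rw [← C_mul, ← C_mul, sub_eq_zero.1 h1]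
        linear_combination -Q * h7
      rw [h6]
      exact h3.mul_left _
    · have h5 : v t ≠ 0 := by
        intro h0
        rw [h0, mul_zero, zero_sub, neg_eq_zero] at h1
        rcases h2 with h2 | h2
        · exact (mul_ne_zero h2 h4) h1
        · exact h2 h0
      apply invC_Cu h5
      have h6 : C (v t) * (C (u t0) * P + C (v t0) * Q) =
          C (v t0) * (C (u t) * P + C (v t) * Q) := by
        have h7 : (C (u t0) * C (v t) : MvPolynomial I ℂ) = C (u t) * C (v t0) := by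
          rw [← C_mul, ← C_mul, sub_eq_zero.1 h1]
        linear_combination P * h7
      rw [h6]
      exact h3.mul_left _
  obtain ⟨B, hB, hBc⟩ := hT.exists_subset_card_eq (n + 1)
  have hprod : (∏ t ∈ B, (G + C t * F)) ∣ C (u t0) * P + C (v t0) * Q := by
    apply Finset.prod_dvd_of_isRelPrime
    · intro t ht t' ht' hne
      exact (hirr t (hB ht)).isRelPrime_iff_not_dvd.2 (hnd t (hB ht) t' (hB ht') hne)
    · intro t ht
      exact hdv t (hB ht)
  have hR0 : C (u t0) * P + C (v t0) * Q ≠ 0 := by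
    intro h0
    obtain ⟨h1, h2⟩ := hPQ _ _ h0
    rcases (huv t0 ht0).1 with h3 | h3
    · exact h3 h1
    · exact h3 h2
  have hph : (∏ t ∈ B, (G + C t * F)).IsHomogeneous (∑ _t ∈ B, N) :=
    IsHomogeneous.prod B _ _ fun t _ => invC_homM hF hG t
  obtain ⟨k, -, -, hle, -⟩ := invC_deg hph (invC_hom hP hQ _ _) hR0 hprod
  rw [Finset.sum_const, hBc, smul_eq_mul] at hle
  nlinarith

theorem inv_rat {𝒜 : Matrix I I (MvPolynomial I ℂ)} (hA : 𝒜.transpose = -𝒜) (hlin : Lin 𝒜)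
    (hpl : Parl 𝒜) {N : ℕ} (hmin : ∀ n < N, ¬ Pr 𝒜 n) {F G : MvPolynomial I ℂ} {χ : I → ℂ}
    (hF : F.IsHomogeneous N) (hG : G.IsHomogeneous N) (hnp : NP F G) (sF : SI 𝒜 χ F)
    (sG : SI 𝒜 χ G) (n : ℕ) (P Q : MvPolynomial I ℂ) (hP : P.IsHomogeneous n)
    (hQ : Q.IsHomogeneous n) (hQ0 : Q ≠ 0) (hinv : ∀ i, ∑ j, 𝒜 i j * wr Q P j = 0) :
    ∃ (b : ℕ) (α β : ℕ → ℂ), bf b β F G ≠ 0 ∧ P * bf b β F G = Q * bf b α F G := by
  induction n using Nat.strong_induction_on generalizing P Q with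
  | _ n ih =>
  by_cases hPQ : NP P Q
  · obtain ⟨c, P', Q', χ', n', hc0, hPc, hQc, hP', hQ', hn', hnp', sP, sQ⟩ :=
      inv_np hA hlin hP hQ hPQ hinv
    suffices hs : ∃ (b : ℕ) (α β : ℕ → ℂ), bf b β F G ≠ 0 ∧ P' * bf b β F G = Q' * bf b α F G by
      obtain ⟨b, α, β, h1, h2⟩ := hs
      refine ⟨b, α, β, h1, ?_⟩
      rw [hPc, hQc, mul_assoc, mul_assoc, h2]
    have hN : 1 ≤ N := np_pos hnp hF hG
    have hfin := irr_members hlin hmin hF hG hnp sF sG
    have hT : ({t : ℂ | ¬ Irreducible (G + C t * F)}ᶜ).Infinite := hfin.infinite_compl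
    set T : Set ℂ := {t : ℂ | ¬ Irreducible (G + C t * F)}ᶜ with hTdef
    have hirr : ∀ t ∈ T, Irreducible (G + C t * F) := by
      intro t ht
      by_contra h
      exact ht h
    have hnd : ∀ t ∈ T, ∀ t' ∈ T, t ≠ t' → ¬ (G + C t * F) ∣ (G + C t' * F) :=
      fun t ht t' _ hne => invC_ndvd hlin hmin hF hG hnp sF sG (hirr t ht) hne
    have hR : ∀ t : ℂ, ∃ u v : ℂ, t ∈ T →
        ((u ≠ 0 ∨ v ≠ 0) ∧ (G + C t * F) ∣ C u * P' + C v * Q') := by
      intro t
      by_cases ht : t ∈ T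
      · obtain ⟨u, v, h1, h2⟩ := invC_R hA hlin hpl hmin hF hG hnp sF sG hP' hQ' hnp' sP sQ
          (hirr t ht) (t' := t + 1) (by
            intro h
            have h1 : (1 : ℂ) = 0 := by linear_combination -h
            exact one_ne_zero h1)
        exact ⟨u, v, fun _ => ⟨h1, h2⟩⟩
      · exact ⟨0, 0, fun h => absurd h ht⟩
    choose u v huv using hR
    obtain ⟨t1, ht1, t2, ht2, hD⟩ := invC_two hN hF hG hP' hQ' hnp' hT hirr hnd u v huv
    have hR0 : ∀ t ∈ T, C (u t) * P' + C (v t) * Q' ≠ 0 := by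
      intro t ht h0
      obtain ⟨h1, h2⟩ := hnp' _ _ h0
      rcases (huv t ht).1 with h3 | h3
      · exact h3 h1
      · exact h3 h2
    obtain ⟨P1, hP1, hP10, hNn, hP1h⟩ := invC_deg (invC_homM hF hG t1) (invC_hom hP' hQ' _ _)
      (hR0 t1 ht1) (huv t1 ht1).2
    obtain ⟨Q1, hQ1, hQ10, -, hQ1h⟩ := invC_deg (invC_homM hF hG t2) (invC_hom hP' hQ' _ _)
      (hR0 t2 ht2) (huv t2 ht2).2
    have hM : ∀ w : ℂ, SI 𝒜 χ (G + C w * F) := by
      intro w
      have h1 := si_lin sG sF 1 w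
      rwa [C_1, one_mul] at h1
    have sP1 : SI 𝒜 (χ' - χ) P1 := by
      apply si_quo (hirr t1 ht1).ne_zero (hM t1)
      rw [← hP1]
      exact si_lin sP sQ _ _
    have sQ1 : SI 𝒜 (χ' - χ) Q1 := by
      apply si_quo (hirr t2 ht2).ne_zero (hM t2)
      rw [← hQ1]
      exact si_lin sP sQ _ _
    obtain ⟨b, α, β, hB0, hBA⟩ := ih (n' - N) (by omega) P1 Q1 hP1h hQ1h hQ10
      (fun i => wr_ker hA sQ1 sP1 i)
    obtain ⟨γ1, hγ1⟩ := bf_mul_lin b α F G t1 1
    obtain ⟨γ2, hγ2⟩ := bf_mul_lin b β F G t2 1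
    set D : ℂ := u t1 * v t2 - u t2 * v t1 with hDdef
    obtain ⟨α', hα'⟩ := bf_add (b + 1) γ1 γ2 F G (v t2 / D) (-(v t1 / D))
    obtain ⟨β', hβ'⟩ := bf_add (b + 1) γ1 γ2 F G (-(u t2 / D)) (u t1 / D)
    have hM2 : G + C t2 * F ≠ 0 := (hirr t2 ht2).ne_zero
    have hQ'0 : Q' ≠ 0 := by
      intro h0
      apply hQ0
      rw [hQc, h0, mul_zero]
    have hCD : (C D⁻¹ * C D : MvPolynomial I ℂ) = 1 := by
      rw [← C_mul, inv_mul_cancel₀ hD, C_1]
    have hCDe : (C D : MvPolynomial I ℂ) = C (u t1) * C (v t2) - C (u t2) * C (v t1) := by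
      rw [hDdef, C_sub, C_mul, C_mul]
    have hX : (C (u t1) * P' + C (v t1) * Q') * ((G + C t2 * F) * bf b β F G) =
        (C (u t2) * P' + C (v t2) * Q') * ((G + C t1 * F) * bf b α F G) := by
      linear_combination ((G + C t2 * F) * bf b β F G) * hP1 +
        ((G + C t1 * F) * (G + C t2 * F)) * hBA - ((G + C t1 * F) * bf b α F G) * hQ1
    have hkP : P' * ((G + C t2 * F) * bf b β F G) =
        (C (u t2) * P' + C (v t2) * Q') * bf (b + 1) α' F G := by
      rw [hα', hγ1, hγ2, div_eq_mul_inv, div_eq_mul_inv, C_neg, C_mul, C_mul, C_1]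
      linear_combination (C (v t2) * C D⁻¹) * hX - ((G + C t2 * F) * bf b β F G * P') * hCD +
        ((G + C t2 * F) * bf b β F G * P' * C D⁻¹) * hCDe
    have hkQ : Q' * ((G + C t2 * F) * bf b β F G) =
        (C (u t2) * P' + C (v t2) * Q') * bf (b + 1) β' F G := by
      rw [hβ', hγ1, hγ2, div_eq_mul_inv, div_eq_mul_inv, C_neg, C_mul, C_mul, C_1]
      linear_combination (-(C (u t2) * C D⁻¹)) * hX - ((G + C t2 * F) * bf b β F G * Q') * hCD +
        ((G + C t2 * F) * bf b β F G * Q' * C D⁻¹) * hCDe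
    have hR20 := hR0 t2 ht2
    have hB'0 : bf (b + 1) β' F G ≠ 0 := by
      intro h0
      rw [h0, mul_zero] at hkQ
      exact mul_ne_zero hQ'0 (mul_ne_zero hM2 hB0) hkQ
    refine ⟨b + 1, α', β', hB'0, ?_⟩
    apply mul_left_cancel₀ hR20
    linear_combination Q' * hkP - P' * hkQ
  · rw [NP] at hPQ
    push Not at hPQ
    obtain ⟨s, t, hst, h1⟩ := hPQ
    have hs : s ≠ 0 := by
      intro h0
      have ht := h1 h0
      rw [h0, C_0, zero_mul, zero_add] at hst
      exact hQ0 ((mul_eq_zero.1 hst).resolve_left (fun h => ht (C_eq_zero.1 h)))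
    refine ⟨0, fun _ => -(s⁻¹ * t), fun _ => 1, ?_, ?_⟩
    · simp [bf]
    · simp only [bf, zero_add, Finset.range_one, Finset.sum_singleton, pow_zero, C_1]
      have h2 : (C s⁻¹ * C s : MvPolynomial I ℂ) = 1 := by
        rw [← C_mul, inv_mul_cancel₀ hs, C_1]
      rw [C_neg, C_mul]
      linear_combination C s⁻¹ * hst - P * h2

end Pool.Agent.H21.JQ
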