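import Pool.Agent.H21.JQ.FinC

/-!
# Module IrrM (about 120 lines): almost all members of a minimal pencil are irreducible

PROOF. Suppose the set is infinite; take `D` from `fin_classes` and a finite subset `B` with `D + 1` elements. For `t ∈ B` the member `M t = G + C t * F` is not zero (`NP`), homogeneous of degree `N ≥ 1` (`np_pos`), a
semi-invariant (`si_lin`), not a unit, not irreducible. So `M t = h * q` with `h` irreducible (`WfDvdMonoid.exists_irreducible_factor`) and `q` not a unit (otherwise `M t` would be irreducible); `h`, `q` are homogeneous (`hom_of_dvd`), `q` is not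
constant, so `1 ≤ q.totalDegree` and `h.totalDegree < N`; `h` is a semi-invariant (`si_fac`). Call it `h t`. For `t ≠ t'` in `B`: `¬ h t ∣ h t'`: otherwise `h t` divides `M t` and `M t'`, so it divides
`C (t - t') * F`, hence `F`, and then `G`: `min_coprime`. So `fin_classes` for the type `B` gives `D + 1 ≤ D`.
-/

namespace Pool.Agent.H21.JQ

open MvPolynomial Pool.Agent.H4.JK Pool.Agent.H21.JN Pool.Agent.H21.JP

variable {I : Type} [Fintype I] [DecidableEq I]

private theorem IrrM_factor {𝒜 : Matrix I I (MvPolynomial I ℂ)} (hlin : Lin 𝒜) {N : ℕ}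
    {F G : MvPolynomial I ℂ} {χ : I → ℂ} (hF : F.IsHomogeneous N)
    (hG : G.IsHomogeneous N) (hnp : NP F G) (sF : SI 𝒜 χ F) (sG : SI 𝒜 χ G) {t : ℂ}
    (ht : ¬ Irreducible (G + C t * F)) :
    ∃ h : MvPolynomial I ℂ, Irreducible h ∧ h.IsHomogeneous h.totalDegree ∧ h.totalDegree < N ∧
      (∃ ψ : I → ℂ, SI 𝒜 ψ h) ∧ h ∣ G + C t * F := by
  have hN : 1 ≤ N := np_pos hnp hF hG
  have hM0 : G + C t * F ≠ 0 := by
    intro h0
    have h1 := hnp t 1 (by rw [C_1, one_mul, add_comm]; exact h0)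
    exact one_ne_zero h1.2
  have hMh : (G + C t * F).IsHomogeneous N := by
    refine hG.add ?_
    have := (isHomogeneous_C I t).mul hF
    rwa [zero_add] at this
  have sM : SI 𝒜 χ (G + C t * F) := by
    have h1 := si_lin sG sF 1 t
    rwa [C_1, one_mul] at h1
  have hMd : (G + C t * F).totalDegree = N := hMh.totalDegree hM0
  have hMu : ¬ IsUnit (G + C t * F) := by
    intro hu
    have h1 := (MvPolynomial.isUnit_iff_totalDegree_of_isReduced.1 hu).2
    omega
  obtain ⟨h, hh, hd⟩ := WfDvdMonoid.exists_irreducible_factor hMu hM0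
  obtain ⟨q, hq⟩ := hd
  have hd : h ∣ G + C t * F := ⟨q, hq⟩
  have hqd : q ∣ G + C t * F := ⟨h, by rw [hq, mul_comm]⟩
  have hh0 : h ≠ 0 := hh.ne_zero
  have hq0 : q ≠ 0 := by
    rintro rfl
    exact hM0 (by rw [hq, mul_zero])
  have hqu : ¬ IsUnit q := by
    intro hu
    apply ht
    rw [hq]
    exact (irreducible_mul_isUnit hu).2 hh
  have hhh := hom_of_dvd hMh hM0 hd
  have hqh := hom_of_dvd hMh hM0 hqd
  have hq1 : 1 ≤ q.totalDegree := by
    by_contra hc
    have hc0 : q.totalDegree = 0 := by omega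
    have h1 := totalDegree_eq_zero_iff_eq_C.1 hc0
    apply hqu
    rw [h1]
    apply IsUnit.map
    rw [isUnit_iff_ne_zero]
    intro h2
    apply hq0
    rw [h1, h2, C_0]
  have hsum : h.totalDegree + q.totalDegree = N := by
    rw [← totalDegree_mul_of_isDomain hh0 hq0, ← hq, hMd]
  refine ⟨h, hh, hhh, by omega, si_fac hlin hM0 sM hh hd, hd⟩

theorem irr_members {𝒜 : Matrix I I (MvPolynomial I ℂ)} (hlin : Lin 𝒜) {N : ℕ}
    (hmin : ∀ n < N, ¬ Pr 𝒜 n) {F G : MvPolynomial I ℂ} {χ : I → ℂ} (hF : F.IsHomogeneous N)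
    (hG : G.IsHomogeneous N) (hnp : NP F G) (sF : SI 𝒜 χ F) (sG : SI 𝒜 χ G) :
    {t : ℂ | ¬ Irreducible (G + C t * F)}.Finite := by
  by_contra hinf
  obtain ⟨D, hD⟩ := fin_classes N hmin
  obtain ⟨B, hB, hBc⟩ := Set.Infinite.exists_subset_card_eq hinf (D + 1)
  have key : ∀ t : B, ∃ h : MvPolynomial I ℂ, Irreducible h ∧ h.IsHomogeneous h.totalDegree ∧
      h.totalDegree < N ∧ (∃ ψ : I → ℂ, SI 𝒜 ψ h) ∧ h ∣ G + C t.1 * F := fun t =>
    IrrM_factor hlin hF hG hnp sF sG (hB t.2)
  choose f f1 f2 f3 f4 f5 using key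
  have hcard := hD B f f1 f2 f3 f4 (by
    intro t t' htt hdd
    have hne : t.1 ≠ t'.1 := fun h => htt (Subtype.ext h)
    have d1 : f t ∣ G + C t.1 * F := f5 t
    have d2 : f t ∣ G + C t'.1 * F := hdd.trans (f5 t')
    have d3 : f t ∣ C (t.1 - t'.1) * F := by
      have h1 := dvd_sub d1 d2
      have h2 : G + C t.1 * F - (G + C t'.1 * F) = C (t.1 - t'.1) * F := by
        rw [C_sub]; ring
      rwa [h2] at h1
    have d4 : f t ∣ F := by
      have h1 : f t ∣ C (t.1 - t'.1)⁻¹ * (C (t.1 - t'.1) * F) := d3.mul_left _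
      rwa [← mul_assoc, ← C_mul, inv_mul_cancel₀ (sub_ne_zero.2 hne), C_1, one_mul] at h1
    have d5 : f t ∣ G := by
      have h1 := dvd_sub d1 (d4.mul_left (C t.1))
      rwa [add_sub_cancel_right] at h1
    exact min_coprime hlin hmin hF hG hnp sF sG (f1 t) d4 d5)
  rw [Fintype.card_coe, hBc] at hcard
  omega

end Pool.Agent.H21.JQ
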