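import Pool.Agent.H21.JQ.Base

/-!
# Module LogF (about 160 lines): logarithmic forms with polynomial coefficients

PROOFS. Write `Π = ∏ l, f l`, `Π_j = ∏ l ∈ univ.erase j, f l`, so `Π = f j * Π_j` (`Finset.mul_prod_erase`). `le_hom`: `Π_j` is homogeneous of degree `∑ e - e j`, `pderiv i (f j)` of degree `e j - 1`. `le_ker`: `∑ k, 𝒜 i k * pderiv k (f j) = - gj 𝒜 (f j) i = - C (χ j i) * f j` (skewness), so the
sum is `- Π * C (∑ j, c j * χ j i) = 0`. `le_euler`: `euler` gives `∑ j, C (c j) * Π_j * (e j * f j) = Π * C (∑ j, c j * e j) = 0`. `le_closed`: from `Π = f j * Π_j`: `Π * pderiv l Π_j - Π_j * pderiv l Π = - Π_j ^ 2 * pderiv l (f j)`; so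
`Π * pderiv l (E k) - E k * pderiv l Π = ∑ j, C (c j) * (- Π_j ^ 2 * pderiv l (f j) * pderiv k (f j) + Π * Π_j * pderiv l (pderiv k (f j)))`, which is symmetric in `k, l` (`pderiv_comm'`, JKu). `le_mod`: modulo `f j` only the term `C (c j) * Π_j * pderiv i (f j)` remains
(`f j ∣ Π_j'` for `j' ≠ j`); take `i` with `pderiv i (f j) ≠ 0` (`exists_pderiv_ne`), then `f j` does not divide it (`pderiv_zero_of_dvd`), nor `Π_j` (prime, not dividing any `f l`), nor the nonzero constant. `le_sub`: linearity.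
-/

namespace Pool.Agent.H21.JQ

open MvPolynomial Pool.Agent.H4.JK Pool.Agent.H21.JN Pool.Agent.H21.JP

variable {I : Type} [Fintype I] [DecidableEq I] {J : Type} [Fintype J] [DecidableEq J]

/-- The numerator of the form `∑ c_j d(f_j) / f_j`. -/
noncomputable def LE (f : J → MvPolynomial I ℂ) (c : J → ℂ) (i : I) : MvPolynomial I ℂ :=
  ∑ j, C (c j) * ((∏ l ∈ Finset.univ.erase j, f l) * pderiv i (f j))

theorem le_hom {f : J → MvPolynomial I ℂ} {e : J → ℕ} (hf : ∀ j, (f j).IsHomogeneous (e j))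
    (he : ∀ j, 1 ≤ e j) (c : J → ℂ) (i : I) : (LE f c i).IsHomogeneous (∑ j, e j - 1) := by
  rw [LE]
  refine IsHomogeneous.sum _ _ _ fun j _ => ?_
  have h1 : (∏ l ∈ Finset.univ.erase j, f l).IsHomogeneous (∑ l ∈ Finset.univ.erase j, e l) :=
    IsHomogeneous.prod _ _ _ fun l _ => hf l
  have h2 : (pderiv i (f j)).IsHomogeneous (e j - 1) := (hf j).pderiv
  have h3 := (isHomogeneous_C I (c j)).mul (h1.mul h2)
  have h4 : ∑ j, e j - 1 = 0 + (∑ l ∈ Finset.univ.erase j, e l + (e j - 1)) := by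
    rw [← Finset.add_sum_erase Finset.univ e (Finset.mem_univ j)]
    have := he j
    omega
  rw [h4]
  exact h3

private theorem LogF_swap {𝒜 : Matrix I I (MvPolynomial I ℂ)} (hA : 𝒜.transpose = -𝒜)
    (P : MvPolynomial I ℂ) (i : I) : ∑ j, 𝒜 i j * pderiv j P = -gj 𝒜 P i := by
  rw [gj, ← Finset.sum_neg_distrib]
  refine Finset.sum_congr rfl fun j _ => ?_
  have h1 := congrFun (congrFun hA j) i
  simp only [Matrix.transpose_apply, Matrix.neg_apply] at h1
  rw [h1]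
  ring

private theorem LogF_prod (f : J → MvPolynomial I ℂ) (j : J) :
    f j * ∏ l ∈ Finset.univ.erase j, f l = ∏ l, f l :=
  Finset.mul_prod_erase Finset.univ f (Finset.mem_univ j)

private theorem LogF_sum (f : J → MvPolynomial I ℂ) (c : J → ℂ) (a : I → MvPolynomial I ℂ) :
    ∑ k, a k * LE f c k =
      ∑ j, C (c j) * ((∏ l ∈ Finset.univ.erase j, f l) * ∑ k, a k * pderiv k (f j)) := by
  simp only [LE, Finset.mul_sum]
  rw [Finset.sum_comm]
  refine Finset.sum_congr rfl fun j _ => Finset.sum_congr rfl fun k _ => ?_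
  ring

theorem le_ker {𝒜 : Matrix I I (MvPolynomial I ℂ)} (hA : 𝒜.transpose = -𝒜)
    {f : J → MvPolynomial I ℂ} {χ : J → I → ℂ} (hχ : ∀ j, SI 𝒜 (χ j) (f j)) {c : J → ℂ}
    (h : ∀ i, ∑ j, c j * χ j i = 0) (i : I) : ∑ k, 𝒜 i k * LE f c k = 0 := by
  rw [LogF_sum f c (fun k => 𝒜 i k)]
  have h1 : ∀ j ∈ Finset.univ, C (c j) * ((∏ l ∈ Finset.univ.erase j, f l) *
      ∑ k, 𝒜 i k * pderiv k (f j)) = -(∏ l, f l) * C (c j * χ j i) := by
    intro j _
    rw [LogF_swap hA, hχ j i, ← LogF_prod f j, C_mul]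
    ring
  rw [Finset.sum_congr rfl h1, ← Finset.mul_sum, ← map_sum, h i, C_0, mul_zero]

theorem le_euler {f : J → MvPolynomial I ℂ} {e : J → ℕ} (hf : ∀ j, (f j).IsHomogeneous (e j))
    {c : J → ℂ} (h : ∑ j, c j * (e j : ℂ) = 0) : ∑ i, X i * LE f c i = 0 := by
  rw [LogF_sum f c (fun k => X k)]
  have h1 : ∀ j ∈ Finset.univ, C (c j) * ((∏ l ∈ Finset.univ.erase j, f l) *
      ∑ k, X k * pderiv k (f j)) = (∏ l, f l) * C (c j * (e j : ℂ)) := by
    intro j _
    rw [euler (hf j), ← LogF_prod f j, C_mul, map_natCast]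
    ring
  rw [Finset.sum_congr rfl h1, ← Finset.mul_sum, ← map_sum, h, C_0, mul_zero]

theorem le_closed (f : J → MvPolynomial I ℂ) (c : J → ℂ) (k l : I) :
    (∏ j, f j) * (pderiv l (LE f c k) - pderiv k (LE f c l)) =
      LE f c k * pderiv l (∏ j, f j) - LE f c l * pderiv k (∏ j, f j) := by
  simp only [LE]
  rw [map_sum, map_sum, ← Finset.sum_sub_distrib, Finset.mul_sum, Finset.sum_mul, Finset.sum_mul,
    ← Finset.sum_sub_distrib]
  refine Finset.sum_congr rfl fun j _ => ?_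
  rw [← LogF_prod f j]
  simp only [pderiv_mul, pderiv_C]
  rw [pderiv_comm' (f j) k l]
  ring

theorem le_mod {f : J → MvPolynomial I ℂ} (hirr : ∀ j, Irreducible (f j))
    (hne : ∀ j j', j ≠ j' → ¬ f j ∣ f j') {c : J → ℂ} {j : J} (hc : c j ≠ 0) :
    ∃ i, ¬ f j ∣ LE f c i := by
  obtain ⟨i, hi⟩ := exists_pderiv_ne (hirr j)
  refine ⟨i, fun hd => ?_⟩
  rw [LE, ← Finset.add_sum_erase Finset.univ _ (Finset.mem_univ j)] at hd
  have h1 : f j ∣ ∑ x ∈ Finset.univ.erase j,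
      C (c x) * ((∏ l ∈ Finset.univ.erase x, f l) * pderiv i (f x)) := by
    refine Finset.dvd_sum fun x hx => ?_
    have hjx : j ∈ Finset.univ.erase x :=
      Finset.mem_erase.2 ⟨(Finset.ne_of_mem_erase hx).symm, Finset.mem_univ j⟩
    exact ((Finset.dvd_prod_of_mem f hjx).mul_right _).mul_left _
  have h3 : f j ∣ C (c j) * ((∏ l ∈ Finset.univ.erase j, f l) * pderiv i (f j)) :=
    (dvd_add_left h1).1 hd
  have hp := (hirr j).prime
  rcases hp.dvd_or_dvd h3 with h4 | h4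
  · apply (hirr j).not_isUnit
    refine isUnit_of_dvd_unit h4 ?_
    apply IsUnit.map
    rw [isUnit_iff_ne_zero]
    exact hc
  · rcases hp.dvd_or_dvd h4 with h5 | h5
    · obtain ⟨l, hl, h6⟩ := (hp.dvd_finsetProd_iff _).1 h5
      exact hne j l (Finset.ne_of_mem_erase hl).symm h6
    · exact hi (pderiv_zero_of_dvd h5)

theorem le_sub (f : J → MvPolynomial I ℂ) (c c' : J → ℂ) (a b : ℂ) (i : I) :
    LE f (fun j => a * c j + b * c' j) i = C a * LE f c i + C b * LE f c' i := by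
  simp only [LE]
  rw [Finset.mul_sum, Finset.mul_sum, ← Finset.sum_add_distrib]
  refine Finset.sum_congr rfl fun j _ => ?_
  rw [C_add, C_mul, C_mul]
  ring

end Pool.Agent.H21.JQ
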