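import Pool.Agent.H21.JQ.Base

/-!
# Module PsiI (about 120 lines): the quotient of two parallel closed forms is an invariant

PROOFS. Let `i` be fixed, `P = E i * Θ`, `Q = Π * v i`. From `hpar`: `E k * v i = E i * v k`, so (4) `Q * (E k * Θ) = Π * (P * v k)` for all `k`. Apply `pderiv l` to (4) for `k` and `pderiv k` to (4) for `l` and subtract:
`(E k * Θ) * pderiv l Q - (E l * Θ) * pderiv k Q + Q * Θ * (pderiv l (E k) - pderiv k (E l)) + Q * (E k * pderiv l Θ - E l * pderiv k Θ)`
`= P * (v k * pderiv l Π - v l * pderiv k Π) + Π * (v k * pderiv l P - v l * pderiv k P) + Π * P * (pderiv l (v k) - pderiv k (v l))`. Multiply by `Π * Θ` and use `hE`, `hV` and (4) (`Π * Θ * ...`): with `Π * (pderiv l (E k) - pderiv k (E l)) = E k * pderiv l Π - E l * pderiv k Π`,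
`Θ * (pderiv l (v k) - pderiv k (v l)) = v k * pderiv l Θ - v l * pderiv k Θ` everything reduces to `Π ^ 2 * Θ * (v k * (P * pderiv l Q - Q * pderiv l P) - v l * (P * pderiv k Q - Q * pderiv k P)) = 0` up to the factor `Q` (multiply also by `Q` where
necessary), which is the claim because `wr Q P l = Q * pderiv l P - P * pderiv l Q`. In the language of rational functions: `η = E / Π`, `θ = v / Θ` are closed and `η = ψ θ` with `ψ = P / Q`, so `dψ ∧ θ = 0`. (Alternatively compute in the fraction field with a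
derivation extended to it.) `psi_ker`: `v i * (∑ j, 𝒜 a j * wr Q P j) = wr Q P i * (∑ j, 𝒜 a j * v j) = 0` by `psi_par`. `wr_closed`: direct computation with `pderiv_comm'` (JKu): `pderiv l (wr F G k) - pderiv k (wr F G l) = 2 * (pderiv l F * pderiv k G - pderiv k F * pderiv l G)`.
-/

namespace Pool.Agent.H21.JQ

open MvPolynomial Pool.Agent.H4.JK Pool.Agent.H21.JN Pool.Agent.H21.JP

variable {I : Type} [Fintype I] [DecidableEq I]

theorem wr_closed (F G : MvPolynomial I ℂ) (k l : I) :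
    F ^ 2 * (pderiv l (wr F G k) - pderiv k (wr F G l)) =
      wr F G k * pderiv l (F ^ 2) - wr F G l * pderiv k (F ^ 2) := by
  have h1 : pderiv l (pderiv k F) = pderiv k (pderiv l F) := pderiv_comm' F k l
  have h2 : pderiv l (pderiv k G) = pderiv k (pderiv l G) := pderiv_comm' G k l
  rw [sq, wr, wr, map_sub, map_sub, pderiv_mul, pderiv_mul, pderiv_mul, pderiv_mul, pderiv_mul,
    pderiv_mul, h1, h2]
  ring

set_option linter.unusedSectionVars false in
private theorem PsiI_form {E v : I → MvPolynomial I ℂ} {Pd Th : MvPolynomial I ℂ}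
    (hE : ∀ k l, Pd * (pderiv l (E k) - pderiv k (E l)) = E k * pderiv l Pd - E l * pderiv k Pd)
    (hV : ∀ k l, Th * (pderiv l (v k) - pderiv k (v l)) = v k * pderiv l Th - v l * pderiv k Th)
    (hpar : ∀ k l, E k * v l = E l * v k) (i k : I) :
    wr (Pd * v i) (E i * Th) k =
      E k * (Pd * v i * pderiv i Th - Th * v i * pderiv i Pd - Pd * Th * pderiv i (v i)) +
        v k * (Pd * Th * pderiv i (E i)) := by
  have h4 : pderiv i (E i * v k) = pderiv i (E k * v i) := by rw [hpar i k]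
  rw [pderiv_mul, pderiv_mul] at h4
  rw [wr, pderiv_mul, pderiv_mul]
  linear_combination (Th * v i) * hE i k - (Pd * E i) * hV i k + (Pd * pderiv i Th) * hpar i k -
    (Pd * Th) * h4

theorem psi_par {E v : I → MvPolynomial I ℂ} {Pd Th : MvPolynomial I ℂ} (hPd : Pd ≠ 0) (hTh : Th ≠ 0)
    (hE : ∀ k l, Pd * (pderiv l (E k) - pderiv k (E l)) = E k * pderiv l Pd - E l * pderiv k Pd)
    (hV : ∀ k l, Th * (pderiv l (v k) - pderiv k (v l)) = v k * pderiv l Th - v l * pderiv k Th)
    (hpar : ∀ k l, E k * v l = E l * v k) {i : I} (hvi : v i ≠ 0) (k l : I) :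
    wr (Pd * v i) (E i * Th) k * v l = wr (Pd * v i) (E i * Th) l * v k := by
  rw [PsiI_form hE hV hpar i k, PsiI_form hE hV hpar i l]
  linear_combination (Pd * v i * pderiv i Th - Th * v i * pderiv i Pd -
    Pd * Th * pderiv i (v i)) * hpar k l

theorem psi_ker {𝒜 : Matrix I I (MvPolynomial I ℂ)} {E v : I → MvPolynomial I ℂ}
    {Pd Th : MvPolynomial I ℂ} (hPd : Pd ≠ 0) (hTh : Th ≠ 0)
    (hE : ∀ k l, Pd * (pderiv l (E k) - pderiv k (E l)) = E k * pderiv l Pd - E l * pderiv k Pd)
    (hV : ∀ k l, Th * (pderiv l (v k) - pderiv k (v l)) = v k * pderiv l Th - v l * pderiv k Th)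
    (hpar : ∀ k l, E k * v l = E l * v k) {i : I} (hvi : v i ≠ 0)
    (hker : ∀ a, ∑ j, 𝒜 a j * v j = 0) (a : I) :
    ∑ j, 𝒜 a j * wr (Pd * v i) (E i * Th) j = 0 := by
  have h1 : v i * ∑ j, 𝒜 a j * wr (Pd * v i) (E i * Th) j =
      wr (Pd * v i) (E i * Th) i * ∑ j, 𝒜 a j * v j := by
    rw [Finset.mul_sum, Finset.mul_sum]
    refine Finset.sum_congr rfl fun j _ => ?_
    linear_combination (𝒜 a j) * psi_par hPd hTh hE hV hpar hvi j i
  rw [hker, mul_zero] at h1
  exact (mul_eq_zero.1 h1).resolve_left hvi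

end Pool.Agent.H21.JQ
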