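import Pool.Agent.H21.JQ.LogF
import Pool.Agent.H21.JQ.PsiI
import Pool.Agent.H21.JQ.DimW

/-!
# Module NoPr (about 150 lines): the case without pencils of semi-invariants

PROOF. Let `e j = totalDegree (f j)`. (R) if `S : Finset J` has more than `c0` elements there is `c ≠ 0`, supported in `S`, with `∑ j, c j * χ j i = 0` for all `i` and `∑ j, c j * e j = 0`: `card_le_of_indep` (contraposition) for the subtype `S`, extended by zero. Suppose `c0 + 2 ≤ card J`. Take `c` for
`S = univ`, `j1` with `c j1 ≠ 0`, and `c'` for `S = univ.erase j1`, so `c' j1 = 0`, `c' ≠ 0`. Put `E = LE f c`, `E' = LE f c'`, `Π = ∏ f l`. Both are homogeneous of degree `∑ e - 1`, kernel fields with the Euler relation (`le_hom`, `le_ker`, `le_euler`), so `Parl` gives `E k * E' l = E l * E' k`. `E' i ≠ 0` for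
some `i` (`le_mod`). `psi_ker` with `v = E'`, `Θ = Π` (`le_closed` twice): the pair `P = E i * Π`, `Q = Π * E' i` satisfies `∑ j, 𝒜 a j * wr Q P j = 0`; `P`, `Q` are homogeneous of the same degree. `NP P Q`: if `C s * P + C t * Q = 0` then `C s * E i + C t * E' i = 0`, hence for all `k`
`(C s * E k + C t * E' k) * E' i = (C s * E i + C t * E' i) * E' k = 0`, so `LE f (s c + t c') = 0` (`le_sub`) and `s c + t c' = 0` (`le_mod`); at `j1`: `s = 0`, then `t = 0`. `inv_np` gives `Pr 𝒜 n'`, against `hno`.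
-/

namespace Pool.Agent.H21.JQ

open MvPolynomial Module Pool.Agent.H4.JK Pool.Agent.H21.JN Pool.Agent.H21.JP

variable {I : Type} [Fintype I] [DecidableEq I]

private theorem NoPr_rel {𝒜 : Matrix I I (MvPolynomial I ℂ)} {J : Type} [Fintype J] [DecidableEq J]
    {f : J → MvPolynomial I ℂ} {χ : J → I → ℂ} (hirr : ∀ j, Irreducible (f j))
    (hhom : ∀ j, (f j).IsHomogeneous (f j).totalDegree) (hSI : ∀ j, SI 𝒜 (χ j) (f j)) (c0 : ℕ)
    (h : ∃ᶠ p in gen I, ∃ L : Submodule ℂ (I → ℂ), finrank ℂ L ≤ c0 ∧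
      ∀ j, grd (f j) p.1 ∈ L) (S : Finset J) (hS : c0 < S.card) :
    ∃ c : J → ℂ, c ≠ 0 ∧ (∀ j, j ∉ S → c j = 0) ∧ (∀ i, ∑ j, c j * χ j i = 0) ∧
      ∑ j, c j * ((f j).totalDegree : ℂ) = 0 := by
  by_contra hno
  have hle : Fintype.card S ≤ c0 := by
    refine card_le_of_indep (𝒜 := 𝒜) (f := fun j : S => f j.1) (χ := fun j : S => χ j.1)
      (e := fun j : S => (f j.1).totalDegree) (fun j => (hirr j.1).ne_zero)
      (fun j => hSI j.1) (fun j => hhom j.1) c0 ?_ ?_
    · exact h.mono fun p ⟨L, h1, h2⟩ => ⟨L, h1, fun j => h2 j.1⟩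
    · intro c hc1 hc2
      by_contra hc0
      obtain ⟨j0, hj0⟩ := Function.ne_iff.1 hc0
      have hext : ∀ g : J → ℂ, ∑ j, (if hj : j ∈ S then c ⟨j, hj⟩ else 0) * g j =
          ∑ j : S, c j * g j.1 := by
        intro g
        rw [← Finset.sum_subset (Finset.subset_univ S), ← Finset.sum_attach S]
        · refine Finset.sum_congr rfl fun j _ => ?_
          rw [dif_pos j.2]
        · intro j _ hj
          rw [dif_neg hj, zero_mul]
      refine hno ⟨fun j => if hj : j ∈ S then c ⟨j, hj⟩ else 0, ?_, ?_, ?_, ?_⟩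
      · intro h0
        apply hj0
        have h1 := congrFun h0 j0.1
        simpa using h1
      · intro j hj
        exact dif_neg hj
      · intro i
        rw [hext fun j => χ j i]
        exact hc1 i
      · rw [hext fun j => ((f j).totalDegree : ℂ)]
        exact hc2
  rw [Fintype.card_coe] at hle
  omega

theorem card_le_no_pair {𝒜 : Matrix I I (MvPolynomial I ℂ)} (hA : 𝒜.transpose = -𝒜)
    (hlin : Lin 𝒜) (hpl : Parl 𝒜) (hno : ∀ n, ¬ Pr 𝒜 n) {J : Type} [Fintype J] [DecidableEq J]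
    {f : J → MvPolynomial I ℂ} {χ : J → I → ℂ} (hirr : ∀ j, Irreducible (f j))
    (hhom : ∀ j, (f j).IsHomogeneous (f j).totalDegree) (hSI : ∀ j, SI 𝒜 (χ j) (f j))
    (hne : ∀ j j', j ≠ j' → ¬ f j ∣ f j') (c0 : ℕ)
    (h : ∃ᶠ p in gen I, ∃ L : Submodule ℂ (I → ℂ), finrank ℂ L ≤ c0 ∧
      ∀ j, grd (f j) p.1 ∈ L) : Fintype.card J ≤ c0 + 1 := by
  by_contra hcard
  have he : ∀ j, 1 ≤ (f j).totalDegree := by
    intro j
    by_contra h0
    have h1 := totalDegree_eq_zero_iff_eq_C.1 (by omega : (f j).totalDegree = 0)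
    apply (hirr j).not_isUnit
    rw [h1]
    apply IsUnit.map
    rw [isUnit_iff_ne_zero]
    intro h2
    apply (hirr j).ne_zero
    rw [h1, h2, C_0]
  obtain ⟨c, hc0, -, hc1, hc2⟩ := NoPr_rel (𝒜 := 𝒜) hirr hhom hSI c0 h Finset.univ
    (by rw [Finset.card_univ]; omega)
  obtain ⟨j1, hj1⟩ := Function.ne_iff.1 hc0
  obtain ⟨c', hc'0, hsup, hc'1, hc'2⟩ := NoPr_rel (𝒜 := 𝒜) hirr hhom hSI c0 h
    (Finset.univ.erase j1) (by
      rw [Finset.card_erase_of_mem (Finset.mem_univ _), Finset.card_univ]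
      omega)
  have hc'j1 : c' j1 = 0 := hsup j1 (Finset.notMem_erase j1 _)
  obtain ⟨j2, hj2⟩ := Function.ne_iff.1 hc'0
  have hzero : ∀ b : J → ℂ, (∀ k, LE f b k = 0) → ∀ j, b j = 0 := by
    intro b hb j
    by_contra hbj
    obtain ⟨i, hi⟩ := le_mod hirr hne hbj
    exact hi (by rw [hb i]; exact dvd_zero _)
  have hex : ∃ i, LE f c' i ≠ 0 := by
    by_contra hall
    push Not at hall
    exact hj2 (hzero c' hall j2)
  obtain ⟨i, hi⟩ := hex
  have hPd : ∏ l, f l ≠ 0 := Finset.prod_ne_zero_iff.2 fun j _ => (hirr j).ne_zero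
  have hpar : ∀ k l, LE f c k * LE f c' l = LE f c l * LE f c' k :=
    hpl (LE f c) (LE f c') _ _ (le_hom hhom he c) (le_hom hhom he c') (le_ker hA hSI hc1)
      (le_ker hA hSI hc'1) (le_euler hhom hc2) (le_euler hhom hc'2)
  have hinv := psi_ker (𝒜 := 𝒜) hPd hPd (fun k l => le_closed f c k l)
    (fun k l => le_closed f c' k l) hpar hi (le_ker hA hSI hc'1)
  have hprodhom : (∏ l, f l).IsHomogeneous (∑ j, (f j).totalDegree) :=
    IsHomogeneous.prod _ _ _ fun j _ => hhom j
  have hP : (LE f c i * ∏ l, f l).IsHomogeneous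
      ((∑ j, (f j).totalDegree) + ((∑ j, (f j).totalDegree) - 1)) := by
    rw [add_comm]
    exact (le_hom hhom he c i).mul hprodhom
  have hQ : ((∏ l, f l) * LE f c' i).IsHomogeneous
      ((∑ j, (f j).totalDegree) + ((∑ j, (f j).totalDegree) - 1)) :=
    hprodhom.mul (le_hom hhom he c' i)
  have hnp : NP (LE f c i * ∏ l, f l) ((∏ l, f l) * LE f c' i) := by
    intro s t hst
    have h1 : C s * LE f c i + C t * LE f c' i = 0 := by
      apply mul_left_cancel₀ hPd
      rw [mul_zero, ← hst]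
      ring
    have h2 : ∀ k, LE f (fun j => s * c j + t * c' j) k = 0 := by
      intro k
      rw [le_sub]
      apply mul_right_cancel₀ hi
      linear_combination C s * hpar k i + LE f c' k * h1
    have h3 := hzero _ h2
    have hs : s = 0 := by
      have h4 := h3 j1
      simp only [hc'j1, mul_zero, add_zero] at h4
      exact (mul_eq_zero.1 h4).resolve_right hj1
    refine ⟨hs, ?_⟩
    have h4 := h3 j2
    simp only [hs, zero_mul, zero_add] at h4
    exact (mul_eq_zero.1 h4).resolve_right hj2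
  obtain ⟨d, P', Q', ψ, n', -, -, -, h1, h2, -, h3, h4, h5⟩ := inv_np hA hlin hP hQ hnp hinv
  exact hno n' ⟨P', Q', ψ, h1, h2, h3, h4, h5⟩

end Pool.Agent.H21.JQ
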