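import Pool.Agent.H21.JQ.Cnt
import Pool.Agent.H21.JQ.NoPr
import Pool.Agent.H21.JP.Frq2
import Pool.Agent.H21.JP.Par
import Pool.Agent.H21.JP.LowZ
import Pool.Agent.H21.JP.TwoG
import Pool.Agent.H21.JP.Fam

/-!
# Module NecS (about 180 lines): one nonzero Kronecker index

PROOFS. `nec_single`: as `nec_two` (Pool/Agent/H21/JP/Nec2.lean). `𝒜 = SM b`. `Parl 𝒜`: `parallel` with `d = max d1 d2`; `LowS (SM b) d p` for generic `p` from `gen_hasType`, `line_lin`, `low_span` (`hK` gives the left alternative). Case A: `Pr 𝒜 n` for some `n`; `N = Nat.find`. `k0 + 1 ≤ 2 * N` by `two_gen` and `low_prop` (as in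
`nec_two`). Case B: `Pr 𝒜 n` for no `n`; `N = k0 + 1`. `exists_fix2` with `m = T.2.card` (`Multiset.count_le_card`) and `N` gives the factors `F s` for the `s` with `Exc T m N s`, i.e. `s ∈ T.2`, `Bad s`, `¬ N ∣ T.2.count s`; `J` = the subtype of the finite set in the statement, `f j = F j`, weights by `choose` from
`wt`, `hhom` = `factor_hom`, `hne` from `ne`, `hdeg` = `dne`. Case A: `card_le_exc`. Case B: `card_le_no_pair` (`c0 + 1 ≤ 2 c0 + 3`).
`iff_freq`: (⇐) `engine` (JR) with `D = {(k0, N)}`, `l = 0`. (⇒) `nec_single` gives `N`; `2 ≤ N` because `2 ≤ k0`. If a bad `s ∈ T.2` has `¬ N ∣ T.2.count s` then all bad `s'` with `T.2.count s' = T.2.count s` are in the exceptional set, which has at most `2 c + 3` elements, against `hfreq`.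
-/

namespace Pool.Agent.H21.JQ

open MvPolynomial Module Pool.Agent.H4.JK Pool.Agent.H21.JN Pool.Agent.H21.JP

private theorem NecS_generic {I : Type} [Fintype I] [DecidableEq I]
    {𝒜 : Matrix I I (MvPolynomial I ℂ)} (hlin : Lin 𝒜) (T : Multiset ℕ × Multiset (Multiset ℕ))
    (e : ℕ) (hK : ∀ k ∈ T.1, k ≠ 0 → 2 * e - 1 < k) (h0 : T.1.count 0 ≤ 1)
    {p : (I → ℂ) × (I → ℂ)}
    (hT : HasType (mform (𝒜.map (eval p.1))) (mform (𝒜.map (eval p.2))) T) :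
    ∀ z : I → Polynomial ℂ, (LL 𝒜 p).mulVec z = 0 →
      (∀ i, (z i).natDegree ≤ 2 * e - 1) →
      ∀ t t' i j, (z i).eval t * (z j).eval t' = (z j).eval t * (z i).eval t' := by
  obtain ⟨ι, hι, bl, hpos, hty, hdec⟩ := hT
  obtain ⟨φ, hφ⟩ := hdec
  have hT1 : T.1 = kronPart ((Finset.univ : Finset ι).val.map bl) := by rw [← hty]; rfl
  intro z hz hd t t' i j
  rw [line_lin hlin p] at hz
  rw [hT1] at hK h0
  exact low_prop φ hφ (2 * e - 1) hK h0 z hz hd t t' i j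

private theorem NecS_low {I : Type} [Fintype I] [DecidableEq I]
    {𝒜 : Matrix I I (MvPolynomial I ℂ)} (hlin : Lin 𝒜) (T : Multiset ℕ × Multiset (Multiset ℕ))
    (d k0 : ℕ) (hk0 : 2 ≤ k0) (hK : ∀ k ∈ T.1, k ≠ 0 → k = k0 ∨ d < k)
    (hc : T.1.count k0 = 1) (h0 : T.1.count 0 ≤ 1)
    {p : (I → ℂ) × (I → ℂ)}
    (hT : HasType (mform (𝒜.map (eval p.1))) (mform (𝒜.map (eval p.2))) T) :
    LowS 𝒜 d p := by
  obtain ⟨ι, hι, bl, hpos, hty, hdec⟩ := hT
  obtain ⟨φ, hφ⟩ := hdec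
  have hT1 : T.1 = kronPart ((Finset.univ : Finset ι).val.map bl) := by rw [← hty]; rfl
  rw [hT1] at hK hc h0
  obtain ⟨e, z, h1, h2⟩ := low_span φ hφ d k0 hk0 hK hc h0
  refine ⟨e, z, ?_, h2⟩
  intro y hy hd t
  rw [line_lin hlin p] at hy
  exact h1 y hy hd t

private theorem NecS_parl {I : Type} [Fintype I] [DecidableEq I]
    {g : Type} [LieRing g] [LieAlgebra ℂ g] (b : Basis I ℂ g)
    (T : Multiset ℕ × Multiset (Multiset ℕ)) (hinv : HasInvariant g T) (k0 : ℕ)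
    (hk0 : 2 ≤ k0) (hc : T.1.count k0 = 1) (hK : ∀ k ∈ T.1, k ≠ 0 → k = k0)
    (h0 : T.1.count 0 ≤ 1) : Parl (SM b) := by
  intro v1 v2 d1 d2 h1 h2 k1 k2 e1 e2 i j
  have hlow : ∀ᶠ p in gen I, LowS (SM b) (max d1 d2) p := by
    filter_upwards [gen_hasType b hinv] with p hp
    exact NecS_low (SM_lin b) T (max d1 d2) k0 hk0 (fun k hk hk' => Or.inl (hK k hk hk')) hc h0 hp
  exact parallel hlow v1 v2 (le_max_left _ _) (le_max_right _ _) h1 h2 k1 k2 e1 e2 i j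

/-- The choice of the divisor. -/
private theorem NecS_choice {I : Type} [Fintype I] [DecidableEq I]
    {g : Type} [LieRing g] [LieAlgebra ℂ g] (b : Basis I ℂ g)
    (T : Multiset ℕ × Multiset (Multiset ℕ)) (hinv : HasInvariant g T) (k0 : ℕ)
    (hK : ∀ k ∈ T.1, k ≠ 0 → k = k0) (h0 : T.1.count 0 ≤ 1) :
    ∃ N : ℕ, k0 + 1 ≤ 2 * N ∧
      ((∀ n, ¬ Pr (SM b) n) ∨ ((∀ n < N, ¬ Pr (SM b) n) ∧ Pr (SM b) N)) := by
  classical
  by_cases h : ∃ n, Pr (SM b) n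
  · have hP := Nat.find_spec h
    have hmin : ∀ n < Nat.find h, ¬ Pr (SM b) n := fun n hn => Nat.find_min h hn
    generalize Nat.find h = N at hP hmin
    refine ⟨N, ?_, Or.inr ⟨hmin, hP⟩⟩
    obtain ⟨F, G, ψ, hF, hG, hnp, hψ, hψ'⟩ := hP
    by_contra hcon
    have hN1 : 1 ≤ N := np_pos hnp hF hG
    refine two_gen (SM_skew b) hnp hF hG ψ hψ hψ' ?_
    filter_upwards [gen_hasType b hinv] with p hp
    refine NecS_generic (SM_lin b) T N ?_ h0 hp
    intro k hk hk'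
    have := hK k hk hk'
    omega
  · exact ⟨k0 + 1, by omega, Or.inl fun n hn => h ⟨n, hn⟩⟩

open Classical in
theorem nec_single (T : Multiset ℕ × Multiset (Multiset ℕ)) (hR : Realisable T) (k0 : ℕ)
    (hk0 : 2 ≤ k0) (hc : T.1.count k0 = 1) (hK : ∀ k ∈ T.1, k ≠ 0 → k = k0)
    (h0 : T.1.count 0 ≤ 1) :
    ∃ N : ℕ, k0 + 1 ≤ 2 * N ∧
      (T.2.toFinset.filter fun s => Bad s ∧ ¬ N ∣ T.2.count s).card ≤
        2 * (T.1.map (· + 1)).sum + 3 := by
  obtain ⟨g, _, _, hfd, hinv⟩ := hR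
  let b := Module.finBasis ℂ g
  have hpl : Parl (SM b) := NecS_parl b T hinv k0 hk0 hc hK h0
  obtain ⟨N, hN, hA⟩ := NecS_choice b T hinv k0 hK h0
  refine ⟨N, hN, ?_⟩
  obtain ⟨F, hS, hfr⟩ := exists_fix2 b T hinv (Multiset.card T.2) N
  have hmem : ∀ s ∈ (T.2.toFinset.filter fun s => Bad s ∧ ¬ N ∣ T.2.count s),
      Exc T (Multiset.card T.2) N s := by
    intro s hs
    obtain ⟨h2, h3⟩ := Finset.mem_filter.1 hs
    exact ⟨Multiset.mem_toFinset.1 h2, h3.1, Multiset.count_le_card _ _, h3.2⟩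
  generalize (T.2.toFinset.filter fun s => Bad s ∧ ¬ N ∣ T.2.count s) = Sg at hmem ⊢
  have hfac : ∀ s : Sg, F s.1 ∈ UniqueFactorizationMonoid.factors (GG (SM b)) :=
    fun s => hS.fac s.1 (hmem s.1 s.2)
  have hirr : ∀ s : Sg, Irreducible (F s.1) :=
    fun s => UniqueFactorizationMonoid.irreducible_of_factor _ (hfac s)
  have hhom : ∀ s : Sg, (F s.1).IsHomogeneous (F s.1).totalDegree :=
    fun s => factor_hom (SM_lin b) (hfac s)
  have hw : ∀ s : Sg, ∃ χ : Fin (finrank ℂ g) → ℂ,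
      ∀ j, gj (SM b) (F s.1) j = C (χ j) * F s.1 := fun s => hS.wt s.1 (hmem s.1 s.2)
  choose χ hχ using hw
  have hne : ∀ s s' : Sg, s ≠ s' → ¬ F s.1 ∣ F s'.1 := fun s s' hss =>
    hS.ne s.1 (hmem s.1 s.2) s'.1 (hmem s'.1 s'.2) fun h => hss (Subtype.ext h)
  have hdeg : ∀ s : Sg, (F s.1).totalDegree ≠ N := fun s => hS.dne s.1 (hmem s.1 s.2)
  have hfr' : ∃ᶠ p in gen (Fin (finrank ℂ g)), ∃ L : Submodule ℂ (Fin (finrank ℂ g) → ℂ),
      finrank ℂ L ≤ (T.1.map (· + 1)).sum ∧ ∀ s : Sg, grd (F s.1) p.1 ∈ L := by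
    refine hfr.mono ?_
    rintro p ⟨L, hL1, hL2⟩
    exact ⟨L, hL1, fun s => hL2 s.1 (hmem s.1 s.2)⟩
  have h2 : Fintype.card Sg ≤ 2 * (T.1.map (· + 1)).sum + 3 := by
    rcases hA with hno | ⟨hmin, hPr⟩
    · have h3 := card_le_no_pair (SM_skew b) (SM_lin b) hpl hno (f := fun s : Sg => F s.1)
        (χ := χ) hirr hhom hχ hne _ hfr'
      omega
    · exact card_le_exc (SM_skew b) (SM_lin b) hpl hmin hPr (f := fun s : Sg => F s.1)
        (χ := χ) hirr hhom hχ hne hdeg _ hfr'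
  rwa [Fintype.card_coe] at h2

open Classical in
theorem iff_freq (T : Multiset ℕ × Multiset (Multiset ℕ)) (hT : IsType T) (k0 : ℕ)
    (hk0 : 2 ≤ k0) (hc : T.1.count k0 = 1) (hK : ∀ k ∈ T.1, k ≠ 0 → k = k0)
    (h0 : T.1.count 0 ≤ 1)
    (hfreq : ∀ s ∈ T.2, Bad s → 2 * (T.1.map (· + 1)).sum + 3 <
      (T.2.toFinset.filter fun s' => Bad s' ∧ T.2.count s' = T.2.count s).card) :
    Realisable T ↔ ∃ N : ℕ, k0 + 1 ≤ 2 * N ∧ ∀ s ∈ T.2, Bad s → N ∣ T.2.count s := by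
  constructor
  · intro hR
    obtain ⟨N, hN, hb⟩ := nec_single T hR k0 hk0 hc hK h0
    refine ⟨N, hN, ?_⟩
    intro s hs hbad
    by_contra hnd
    have h2 : (T.2.toFinset.filter fun s' => Bad s' ∧ T.2.count s' = T.2.count s).card ≤
        (T.2.toFinset.filter fun s' => Bad s' ∧ ¬ N ∣ T.2.count s').card := by
      apply Finset.card_le_card
      intro s' hs'
      rw [Finset.mem_filter] at hs' ⊢
      exact ⟨hs'.1, hs'.2.1, by rw [hs'.2.2]; exact hnd⟩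
    have h3 := hfreq s hs hbad
    omega
  · rintro ⟨N, hN, hd⟩
    refine Pool.Agent.H21.JR.engine T hT {(k0, N)} ?_ ?_ (fun _ => 0) ?_ ?_
    · rw [Multiset.map_singleton]
      refine Multiset.singleton_le.2 (Multiset.count_pos.1 ?_)
      rw [hc]
      exact Nat.one_pos
    · intro d hd'
      rw [Multiset.mem_singleton] at hd'
      subst hd'
      exact ⟨hk0, by show 2 ≤ N; omega, hN⟩
    · intro s hs' hbad
      refine ⟨Nat.zero_le _, ?_⟩
      obtain ⟨q, hq⟩ := hd s hs' hbad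
      rw [Nat.sub_zero, hq, mul_comm, ← smul_eq_mul]
      have hmem : N ∈ AddSubmonoid.closure {N' | ∃ d ∈ ({(k0, N)} : Multiset (ℕ × ℕ)), d.2 = N'} :=
        AddSubmonoid.subset_closure ⟨(k0, N), Multiset.mem_singleton_self _, rfl⟩
      exact nsmul_mem hmem q
    · rw [Finset.sum_const_zero]
      exact Nat.zero_le _

end Pool.Agent.H21.JQ
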