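import Pool.Agent.H21.JQ.InvC
import Pool.Agent.H21.JQ.LogF
import Pool.Agent.H21.JQ.PsiI

/-!
# Module Val (about 230 lines): weights of semi-invariants which contain no full member of the pencil

PROOF. Suppose `c ≠ 0`, `c j ≠ 0`. Put `E = LE f c`, `Π = ∏ f l`, `v = wr F G`, `i0` with `v i0 ≠ 0` (`wr_ne`). `E` and `v` are homogeneous (`le_hom`, `wr_hom`; `1 ≤ totalDegree` of an irreducible polynomial: `irreducible_totalDegree`), kernel fields (`le_ker`, `wr_ker`) with
the Euler relation (`le_euler`, `wr_euler`), so `Parl` gives (1) `E k * v l = E l * v k`. By `psi_ker` (`Θ = F ^ 2`, `le_closed`, `wr_closed`) the pair `P = E i0 * F ^ 2`, `Q = Π * v i0` satisfies the hypothesis of `inv_rat` (both homogeneous of degree `∑ e - 1 + 2 N`). Among all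
`(b, α, β)` with `bf b β F G ≠ 0` and `P * bf b β F G = Q * bf b α F G` choose one with the smallest `b` (`Nat.find`). Write `B`, `A`. `E i0 ≠ 0` (otherwise all `E k = 0` by (1), against `le_mod`), so `P ≠ 0`, `A ≠ 0`. From (1): (2) `E k * F ^ 2 * B = Π * v k * A` for all `k` (multiply by `v i0` and cancel).
Take `k` with `¬ f j ∣ E k` (`le_mod`); `f j ∣ Π`, so `f j ∣ E k * F ^ 2 * B`, `f j ∣ B` (`hFf`). `dvd_form` (JP/AlgF; `bf_ne_zero`) gives `(s, t) ≠ 0` with `f j ∣ M := C s * F + C t * G`; `t ≠ 0` because `¬ f j ∣ F`. `bf_div`: `b = b' + 1`, `B = M * B'`, `B' = bf b' β' F G`. Take `q` from `hfull`: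
irreducible, `q ∣ M`, `¬ q ∣ f l` for all `l`. `¬ q ∣ F`: otherwise `q ∣ C t * G`, against `min_coprime`. `¬ q ∣ A`: otherwise `bf_div` for `q` and `A` gives `A = M * A'`, `A' = bf b' α' F G`, and `P * B' = Q * A'`, against the minimality of `b`. Write `M = q ^ e * g`, `¬ q ∣ g`, `1 ≤ e`. Since
`C t * v k = wr F M k = F * pderiv k M - M * pderiv k F` we get `C t * v k = q ^ (e - 1) * u k`, `u k = F * (e * g * pderiv k q + q * pderiv k g) - q * g * pderiv k F`. Take `k` with `pderiv k q ≠ 0` (`exists_pderiv_ne`); then `¬ q ∣ pderiv k q` (`pderiv_zero_of_dvd`), so `¬ q ∣ u k`. By (2) times `C t`: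
`q ^ e ∣ Π * A * q ^ (e - 1) * u k`, so `q ∣ Π * A * u k`, a contradiction because `q` is prime and divides none of the factors.
-/

namespace Pool.Agent.H21.JQ

open MvPolynomial Pool.Agent.H4.JK Pool.Agent.H21.JN Pool.Agent.H21.JP

variable {I : Type} [Fintype I] [DecidableEq I]

omit [Fintype I] [DecidableEq I] in
private theorem Val_unit {q : MvPolynomial I ℂ} (hq : Irreducible q) {x : ℂ} (hx : x ≠ 0)
    (h : q ∣ C x) : False :=
  hq.not_isUnit (isUnit_of_dvd_unit h ((isUnit_iff_ne_zero.2 hx).map (C : ℂ →+* MvPolynomial I ℂ)))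

omit [Fintype I] [DecidableEq I] in
private theorem Val_cdvd {q F : MvPolynomial I ℂ} (hq : Irreducible q) {x : ℂ} (hx : x ≠ 0)
    (h : q ∣ C x * F) : q ∣ F :=
  (hq.prime.dvd_or_dvd h).resolve_left fun h1 => Val_unit hq hx h1

private theorem Val_final {F G q g : MvPolynomial I ℂ} {s t : ℂ} {m : ℕ} (hq : Irreducible q)
    (hqF : ¬ q ∣ F) (hqg : ¬ q ∣ g) (hM : C s * F + C t * G = q ^ (m + 1) * g) :
    ∃ k u, ¬ q ∣ u ∧ C t * wr F G k = q ^ m * u := by
  obtain ⟨k, hk⟩ := exists_pderiv_ne hq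
  refine ⟨k, F * (((m + 1 : ℕ) : MvPolynomial I ℂ) * g * pderiv k q + q * pderiv k g) -
    q * g * pderiv k F, ?_, ?_⟩
  · intro h
    have h1 : q ∣ F * (((m + 1 : ℕ) : MvPolynomial I ℂ) * g * pderiv k q) := by
      have h2 : F * (((m + 1 : ℕ) : MvPolynomial I ℂ) * g * pderiv k q) =
          (F * (((m + 1 : ℕ) : MvPolynomial I ℂ) * g * pderiv k q + q * pderiv k g) -
            q * g * pderiv k F) + q * (g * pderiv k F - F * pderiv k g) := by ring
      rw [h2]
      exact dvd_add h (dvd_mul_right _ _)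
    rcases hq.prime.dvd_or_dvd h1 with h3 | h3
    · exact hqF h3
    · rcases hq.prime.dvd_or_dvd h3 with h4 | h4
      · rcases hq.prime.dvd_or_dvd h4 with h5 | h5
        · refine Val_unit hq (x := ((m + 1 : ℕ) : ℂ)) (Nat.cast_ne_zero.2 (Nat.succ_ne_zero m)) ?_
          rwa [map_natCast]
        · exact hqg h5
      · exact hk (pderiv_zero_of_dvd h4)
  · have h1 : pderiv k (C s * F + C t * G) = C s * pderiv k F + C t * pderiv k G := by
      rw [map_add, pderiv_C_mul, pderiv_C_mul]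
    have h2 : pderiv k (q ^ (m + 1) * g) =
        q ^ m * (((m + 1 : ℕ) : MvPolynomial I ℂ) * g * pderiv k q + q * pderiv k g) := by
      rw [Derivation.leibniz, Derivation.leibniz_pow, Nat.add_sub_cancel]
      simp only [smul_eq_mul, nsmul_eq_mul]
      ring
    have h3 : C t * wr F G k = F * pderiv k (C s * F + C t * G) -
        (C s * F + C t * G) * pderiv k F := by
      rw [h1, wr]
      ring
    rw [h3, hM, h2]
    ring

theorem indep_weights {𝒜 : Matrix I I (MvPolynomial I ℂ)} (hA : 𝒜.transpose = -𝒜)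
    (hlin : Lin 𝒜) (hpl : Parl 𝒜) {N : ℕ} (hmin : ∀ n < N, ¬ Pr 𝒜 n)
    {F G : MvPolynomial I ℂ} {χ0 : I → ℂ} (hF : F.IsHomogeneous N) (hG : G.IsHomogeneous N)
    (hnp : NP F G) (sF : SI 𝒜 χ0 F) (sG : SI 𝒜 χ0 G) {J : Type} [Fintype J] [DecidableEq J]
    {f : J → MvPolynomial I ℂ} {χ : J → I → ℂ} (hirr : ∀ j, Irreducible (f j))
    (hhom : ∀ j, (f j).IsHomogeneous (f j).totalDegree) (hSI : ∀ j, SI 𝒜 (χ j) (f j))
    (hne : ∀ j j', j ≠ j' → ¬ f j ∣ f j') (hFf : ∀ j, ¬ f j ∣ F)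
    (hfull : ∀ s t : ℂ, (s ≠ 0 ∨ t ≠ 0) →
      ∃ q, Irreducible q ∧ q ∣ C s * F + C t * G ∧ ∀ j, ¬ q ∣ f j)
    (c : J → ℂ) (h1 : ∀ i, ∑ j, c j * χ j i = 0)
    (h2 : ∑ j, c j * ((f j).totalDegree : ℂ) = 0) : c = 0 := by
  by_contra hc
  obtain ⟨j, hj⟩ : ∃ j, c j ≠ 0 := by
    by_contra h
    push Not at h
    exact hc (funext h)
  have hd1 : ∀ j, 1 ≤ (f j).totalDegree := fun j => irreducible_totalDegree (hirr j)
  have hN : 1 ≤ N := np_pos hnp hF hG
  obtain ⟨i0, hi0⟩ := wr_ne hnp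
  have hPd : (∏ l, f l) ≠ 0 := Finset.prod_ne_zero_iff.2 fun l _ => (hirr l).ne_zero
  have hF0 : F ≠ 0 := by
    intro h0
    have h3 := hnp 1 0 (by rw [h0, mul_zero, C_0, zero_mul, zero_add])
    exact one_ne_zero h3.1
  have hSd : 1 ≤ ∑ l, (f l).totalDegree :=
    le_trans (hd1 j) (Finset.single_le_sum (f := fun l => (f l).totalDegree)
      (fun _ _ => Nat.zero_le _) (Finset.mem_univ j))
  have hEhom := le_hom hhom hd1 c
  have hvhom := wr_hom hF hG hN
  have hvker := wr_ker hA sF sG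
  have hpar : ∀ k l, LE f c k * wr F G l = LE f c l * wr F G k :=
    hpl (LE f c) (wr F G) _ _ hEhom hvhom (le_ker hA hSI h1) hvker (le_euler hhom h2)
      (wr_euler hF hG)
  have hinv := psi_ker (𝒜 := 𝒜) hPd (pow_ne_zero 2 hF0) (le_closed f c) (wr_closed F G) hpar hi0 hvker
  have hE0 : LE f c i0 ≠ 0 := by
    intro h0
    obtain ⟨i, hi⟩ := le_mod hirr hne hj
    apply hi
    have h3 := hpar i i0
    rw [h0, zero_mul] at h3
    rw [(mul_eq_zero.1 h3).resolve_right hi0]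
    exact dvd_zero _
  set P := LE f c i0 * F ^ 2 with hPdef
  set Q := (∏ l, f l) * wr F G i0 with hQdef
  have hP0 : P ≠ 0 := mul_ne_zero hE0 (pow_ne_zero 2 hF0)
  have hQ0 : Q ≠ 0 := mul_ne_zero hPd hi0
  have hPhom : P.IsHomogeneous ((∑ l, (f l).totalDegree - 1) + N * 2) :=
    (hEhom i0).mul (hF.pow 2)
  have hQhom : Q.IsHomogeneous ((∑ l, (f l).totalDegree - 1) + N * 2) := by
    have h3 : (∑ l, (f l).totalDegree - 1) + N * 2 = ∑ l, (f l).totalDegree + (2 * N - 1) := by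
      omega
    rw [h3]
    exact (IsHomogeneous.prod Finset.univ f _ fun l _ => hhom l).mul (hvhom i0)
  have hex : ∃ b : ℕ, ∃ α β : ℕ → ℂ, bf b β F G ≠ 0 ∧ P * bf b β F G = Q * bf b α F G :=
    inv_rat hA hlin hpl hmin hF hG hnp sF sG _ P Q hPhom hQhom hQ0 hinv
  classical
  obtain ⟨α, β, hB0, hPB⟩ := Nat.find_spec hex
  have hmin' : ∀ b' < Nat.find hex, ¬ ∃ α β : ℕ → ℂ, bf b' β F G ≠ 0 ∧
      P * bf b' β F G = Q * bf b' α F G := fun b' hb' => Nat.find_min hex hb'
  generalize Nat.find hex = b at hB0 hPB hmin'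
  have h2' : ∀ k, LE f c k * F ^ 2 * bf b β F G = (∏ l, f l) * wr F G k * bf b α F G := by
    intro k
    apply mul_right_cancel₀ hi0
    have h3 := hpar k i0
    rw [hPdef, hQdef] at hPB
    linear_combination F ^ 2 * bf b β F G * h3 + wr F G k * hPB
  have hA0 : bf b α F G ≠ 0 := by
    intro h0
    rw [h0, mul_zero] at hPB
    exact mul_ne_zero hP0 hB0 hPB
  have hjP : f j ∣ ∏ l, f l := Finset.dvd_prod_of_mem f (Finset.mem_univ j)
  have hjB : f j ∣ bf b β F G := by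
    obtain ⟨k, hk⟩ := le_mod hirr hne hj
    have h3 : f j ∣ LE f c k * F ^ 2 * bf b β F G := by
      rw [h2', mul_assoc]
      exact hjP.mul_right _
    rcases (hirr j).prime.dvd_or_dvd h3 with h4 | h4
    · rcases (hirr j).prime.dvd_or_dvd h4 with h5 | h5
      · exact absurd h5 hk
      · exact absurd ((hirr j).prime.dvd_of_dvd_pow h5) (hFf j)
    · exact h4
  have hβ := bf_ne_zero hB0
  obtain ⟨s, t, hst, hjM⟩ := dvd_form (hirr j) b β hβ hjB
  have ht : t ≠ 0 := by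
    intro h0
    rw [h0, C_0, zero_mul, add_zero] at hjM
    have hs : s ≠ 0 := hst.resolve_right fun h => h h0
    exact hFf j (Val_cdvd (hirr j) hs hjM)
  obtain ⟨b', β', hb', hBM⟩ := bf_div (hirr j) (hFf j) hβ hjB hst hjM
  obtain ⟨q, hq, hqM, hqf⟩ := hfull s t hst
  have hM0 : C s * F + C t * G ≠ 0 := by
    intro h0
    exact ht (hnp s t h0).2
  have hqF : ¬ q ∣ F := by
    intro h3
    have h4 : q ∣ C t * G := by
      have h5 : C t * G = (C s * F + C t * G) - F * C s := by ring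
      rw [h5]
      exact dvd_sub hqM (h3.mul_right _)
    exact min_coprime hlin hmin hF hG hnp sF sG hq h3 (Val_cdvd hq ht h4)
  have hqA : ¬ q ∣ bf b α F G := by
    intro h3
    obtain ⟨b'', α', hb'', hAM⟩ := bf_div hq hqF (bf_ne_zero hA0) h3 hst hqM
    have hbb : b'' = b' := by omega
    subst hbb
    apply hmin' b'' (by omega)
    refine ⟨α', β', ?_, ?_⟩
    · intro h0
      rw [hBM, h0, mul_zero] at hB0
      exact hB0 rfl
    · apply mul_left_cancel₀ hM0
      rw [hBM, hAM] at hPB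
      linear_combination hPB
  obtain ⟨n, g, hqg, hMg⟩ := WfDvdMonoid.max_power_factor hM0 hq
  obtain ⟨m, rfl⟩ : ∃ m, n = m + 1 := by
    cases n with
    | zero =>
      exfalso
      rw [pow_zero, one_mul] at hMg
      rw [hMg] at hqM
      exact hqg hqM
    | succ m => exact ⟨m, rfl⟩
  obtain ⟨k, u, hqu, hku⟩ := Val_final hq hqF hqg hMg
  have h3 : q ^ (m + 1) ∣ q ^ m * ((∏ l, f l) * bf b α F G * u) := by
    have h4 : q ^ m * ((∏ l, f l) * bf b α F G * u) =
        q ^ (m + 1) * (g * bf b' β' F G * (C t * (LE f c k * F ^ 2))) := by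
      have h5 := h2' k
      rw [hBM, hMg] at h5
      linear_combination (-((∏ l, f l) * bf b α F G)) * hku - C t * h5
    rw [h4]
    exact dvd_mul_right _ _
  have h4 : q ∣ (∏ l, f l) * bf b α F G * u := by
    rw [pow_succ] at h3
    exact (mul_dvd_mul_iff_left (pow_ne_zero m hq.ne_zero)).1 h3
  rcases hq.prime.dvd_or_dvd h4 with h5 | h5
  · rcases hq.prime.dvd_or_dvd h5 with h6 | h6
    · obtain ⟨l, _, hl⟩ := (Prime.dvd_finsetProd_iff hq.prime f).1 h6
      exact hqf l hl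
    · exact hqA h6
  · exact hqu h5

end Pool.Agent.H21.JQ
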